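import Pool.Agent.H.MP_84f0af_lc.Sched

/-!
Strong NP-hardness of pinwheel scheduling: the density-one instance with small periods attached to
an exact weighted orientation problem.

There are `V` *lanes* `0, ..., V - 1`, `n` *big edges* (the big edge `i` joins the lanes `2 * i`
and `2 * i + 1` and has size `p`), and `W u v` *unit edges* between the lanes `u < v`. The lane `v`
has capacity `c v`. The orientation problem (`Sol`): orient all edges such that each lane `v`
receives edges of total size exactly `c v`.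
The numbers `r v` are distinct primes, not dividing `X = p * Y`.
-/

namespace Pool.Agent.H.MP_84f0af_lc.Strong

open Finset

structure Ori where
  V : ℕ
  n : ℕ
  W : ℕ → ℕ → ℕ
  c : ℕ → ℕ
  p : ℕ
  Y : ℕ
  r : ℕ → ℕ

/-- tiles: identifiers and fillers of the lane `v`, tiles of the big edge `i`, tiles of the unit
edges between `u` and `v` -/
inductive Til where
  | Id (v d : ℕ)
  | Fil (v d : ℕ)
  | Big (i d : ℕ)
  | Sm (u v d : ℕ)
  deriving DecidableEq

namespace Ori
variable (O : Ori)

def X : ℕ := O.p * O.Y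

/-- the period of a tile inside its lane -/
def loc : Til → ℕ
  | .Id v _ => O.r v
  | .Fil v _ => O.r v * O.X
  | .Big i _ => O.r (2 * i) * O.r (2 * i + 1) * O.Y
  | .Sm u v _ => O.r u * O.r v * O.X

def modulus (t : Til) : ℕ := O.V * O.loc t

theorem modulus_Id (v d : ℕ) : O.modulus (.Id v d) = O.V * O.r v := rfl
theorem modulus_Fil (v d : ℕ) : O.modulus (.Fil v d) = O.V * (O.r v * O.X) := rfl
theorem modulus_Big (i d : ℕ) :
    O.modulus (.Big i d) = O.V * (O.r (2 * i) * O.r (2 * i + 1) * O.Y) := rfl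
theorem modulus_Sm (u v d : ℕ) : O.modulus (.Sm u v d) = O.V * (O.r u * O.r v * O.X) := rfl

def idTiles (v : ℕ) : List Til := (List.range (O.r v - 1)).map (Til.Id v)
def filTiles (v : ℕ) : List Til := (List.range (O.X - O.r v * O.c v)).map (Til.Fil v)
def bigTiles (i : ℕ) : List Til := (List.range (O.r (2 * i) * O.r (2 * i + 1))).map (Til.Big i)
def smTiles (u v : ℕ) : List Til := (List.range (O.W u v * (O.r u * O.r v))).map (Til.Sm u v)

/-- the list of all tiles -/
def tiles : List Til :=
  (List.range O.V).flatMap O.idTiles ++ ((List.range O.V).flatMap O.filTiles ++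
    ((List.range O.n).flatMap O.bigTiles ++
      (List.range O.V).flatMap fun u => (List.range O.V).flatMap (O.smTiles u)))

/-- the instance -/
def periods : List ℕ := O.tiles.map O.modulus

structure Good : Prop where
  V_pos : 0 < O.V
  two_n : 2 * O.n ≤ O.V
  p_pos : 0 < O.p
  Y_pos : 0 < O.Y
  prime : ∀ v, (O.r v).Prime
  inj : ∀ u v, O.r u = O.r v → u = v
  cop : ∀ v, ¬ O.r v ∣ O.X
  cap : ∀ v < O.V, O.r v * O.c v ≤ O.X
  big : ∀ v < O.V, O.r v ≤ O.Y
  W_zero : ∀ u v, ¬ (u < v ∧ v < O.V) → O.W u v = 0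
  W_big : ∀ i < O.n, O.W (2 * i) (2 * i + 1) = 0
  sum_c : ∑ v ∈ range O.V, O.c v = O.n * O.p + ∑ u ∈ range O.V, ∑ v ∈ range O.V, O.W u v

/-- how often the big edge at the lane `v` is directed towards `v`; `β i = 1` if the big edge `i`
is directed towards `2 * i` -/
def inB (β : ℕ → ℕ) (v : ℕ) : ℕ :=
  if v < 2 * O.n then (if v % 2 = 0 then β (v / 2) else 1 - β (v / 2)) else 0

/-- the exact orientation problem; for `u < v` the number `α u v` is the number of unit edges
between `u` and `v` directed towards `u` -/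
def Sol : Prop :=
  ∃ (β : ℕ → ℕ) (α : ℕ → ℕ → ℕ), (∀ i, β i ≤ 1) ∧ (∀ u v, α u v ≤ O.W u v) ∧
    ∀ v < O.V, O.p * O.inB β v + ∑ u ∈ range O.V, α v u + ∑ u ∈ range O.V, (O.W u v - α u v)
      = O.c v

/-- tiles are placed (by representatives `ρ`) without overlap -/
def Placed (ρ : Til → ℕ) : Prop :=
  ∀ s ∈ O.tiles, ∀ t ∈ O.tiles, ρ s ≡ ρ t [MOD Nat.gcd (O.modulus s) (O.modulus t)] → s = t

/-! ### membership -/

theorem mem_Id {v d : ℕ} : Til.Id v d ∈ O.tiles ↔ v < O.V ∧ d < O.r v - 1 := by
  simp only [tiles, idTiles, filTiles, bigTiles, smTiles, List.mem_append, List.mem_flatMap,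
    List.mem_range, List.mem_map, Til.Id.injEq, reduceCtorEq, and_false, exists_false, or_false]
  constructor
  · rintro ⟨a, ha, b, hb, rfl, rfl⟩; exact ⟨ha, hb⟩
  · rintro ⟨h, h'⟩; exact ⟨v, h, d, h', rfl, rfl⟩

theorem mem_Fil {v d : ℕ} : Til.Fil v d ∈ O.tiles ↔ v < O.V ∧ d < O.X - O.r v * O.c v := by
  simp only [tiles, idTiles, filTiles, bigTiles, smTiles, List.mem_append, List.mem_flatMap,
    List.mem_range, List.mem_map, Til.Fil.injEq, reduceCtorEq, and_false, exists_false, or_false,
    false_or]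
  constructor
  · rintro ⟨a, ha, b, hb, rfl, rfl⟩; exact ⟨ha, hb⟩
  · rintro ⟨h, h'⟩; exact ⟨v, h, d, h', rfl, rfl⟩

theorem mem_Big {i d : ℕ} :
    Til.Big i d ∈ O.tiles ↔ i < O.n ∧ d < O.r (2 * i) * O.r (2 * i + 1) := by
  simp only [tiles, idTiles, filTiles, bigTiles, smTiles, List.mem_append, List.mem_flatMap,
    List.mem_range, List.mem_map, Til.Big.injEq, reduceCtorEq, and_false, exists_false, or_false,
    false_or]
  constructor
  · rintro ⟨a, ha, b, hb, rfl, rfl⟩; exact ⟨ha, hb⟩
  · rintro ⟨h, h'⟩; exact ⟨i, h, d, h', rfl, rfl⟩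

theorem mem_Sm {u v d : ℕ} : Til.Sm u v d ∈ O.tiles ↔
    u < O.V ∧ v < O.V ∧ d < O.W u v * (O.r u * O.r v) := by
  simp only [tiles, idTiles, filTiles, bigTiles, smTiles, List.mem_append, List.mem_flatMap,
    List.mem_range, List.mem_map, Til.Sm.injEq, reduceCtorEq, and_false, exists_false,
    false_or]
  constructor
  · rintro ⟨a, ha, b, hb, c, hc, rfl, rfl, rfl⟩; exact ⟨ha, hb, hc⟩
  · rintro ⟨h, h', h''⟩; exact ⟨u, h, v, h', d, h'', rfl, rfl, rfl⟩

theorem nodup_tiles : O.tiles.Nodup := by
  have i1 : ∀ v, Function.Injective (Til.Id v) := fun v a b h => by simpa using h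
  have i2 : ∀ v, Function.Injective (Til.Fil v) := fun v a b h => by simpa using h
  have i3 : ∀ v, Function.Injective (Til.Big v) := fun v a b h => by simpa using h
  have i4 : ∀ u v, Function.Injective (Til.Sm u v) := fun u v a b h => by simpa using h
  unfold tiles
  refine List.Nodup.append ?_ (List.Nodup.append ?_ (List.Nodup.append ?_ ?_ ?_) ?_) ?_
  · rw [List.nodup_flatMap]
    refine ⟨fun v _ => List.nodup_range.map (i1 v), List.Pairwise.imp ?_ List.nodup_range⟩
    intro a b hab t h1 h2
    simp only [idTiles, List.mem_map] at h1 h2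
    obtain ⟨x, _, rfl⟩ := h1
    obtain ⟨y, _, hy⟩ := h2
    simp only [Til.Id.injEq] at hy
    exact hab hy.1.symm
  · rw [List.nodup_flatMap]
    refine ⟨fun v _ => List.nodup_range.map (i2 v), List.Pairwise.imp ?_ List.nodup_range⟩
    intro a b hab t h1 h2
    simp only [filTiles, List.mem_map] at h1 h2
    obtain ⟨x, _, rfl⟩ := h1
    obtain ⟨y, _, hy⟩ := h2
    simp only [Til.Fil.injEq] at hy
    exact hab hy.1.symm
  · rw [List.nodup_flatMap]
    refine ⟨fun v _ => List.nodup_range.map (i3 v), List.Pairwise.imp ?_ List.nodup_range⟩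
    intro a b hab t h1 h2
    simp only [bigTiles, List.mem_map] at h1 h2
    obtain ⟨x, _, rfl⟩ := h1
    obtain ⟨y, _, hy⟩ := h2
    simp only [Til.Big.injEq] at hy
    exact hab hy.1.symm
  · rw [List.nodup_flatMap]
    constructor
    · intro u _
      rw [List.nodup_flatMap]
      refine ⟨fun v _ => List.nodup_range.map (i4 u v), List.Pairwise.imp ?_ List.nodup_range⟩
      intro a b hab t h1 h2
      simp only [smTiles, List.mem_map] at h1 h2
      obtain ⟨x, _, rfl⟩ := h1
      obtain ⟨y, _, hy⟩ := h2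
      simp only [Til.Sm.injEq] at hy
      exact hab hy.2.1.symm
    · refine List.Pairwise.imp ?_ List.nodup_range
      intro a b hab t h1 h2
      simp only [smTiles, List.mem_map, List.mem_flatMap] at h1 h2
      obtain ⟨x, _, x', _, rfl⟩ := h1
      obtain ⟨y, _, y', _, hy⟩ := h2
      simp only [Til.Sm.injEq] at hy
      exact hab hy.1.symm
  · intro t h1 h2
    simp only [bigTiles, smTiles, List.mem_flatMap, List.mem_map] at h1 h2
    obtain ⟨_, _, _, _, rfl⟩ := h1
    obtain ⟨_, _, _, _, _, _, h⟩ := h2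
    simp at h
  · intro t h1 h2
    simp only [filTiles, bigTiles, smTiles, List.mem_append, List.mem_flatMap, List.mem_map] at h1 h2
    obtain ⟨_, _, _, _, rfl⟩ := h1
    rcases h2 with ⟨_, _, _, _, h⟩ | ⟨_, _, _, _, _, _, h⟩ <;> simp at h
  · intro t h1 h2
    simp only [idTiles, filTiles, bigTiles, smTiles, List.mem_append, List.mem_flatMap,
      List.mem_map] at h1 h2
    obtain ⟨_, _, _, _, rfl⟩ := h1
    rcases h2 with ⟨_, _, _, _, h⟩ | ⟨_, _, _, _, h⟩ | ⟨_, _, _, _, _, _, h⟩ <;> simp at h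

/-- sums over all tiles -/
theorem sum_tiles (g : Til → ℚ) : (O.tiles.map g).sum =
    ∑ v ∈ range O.V, ∑ d ∈ range (O.r v - 1), g (.Id v d) +
    ∑ v ∈ range O.V, ∑ d ∈ range (O.X - O.r v * O.c v), g (.Fil v d) +
    ∑ i ∈ range O.n, ∑ d ∈ range (O.r (2 * i) * O.r (2 * i + 1)), g (.Big i d) +
    ∑ u ∈ range O.V, ∑ v ∈ range O.V, ∑ d ∈ range (O.W u v * (O.r u * O.r v)), g (.Sm u v d) := by
  have key : ∀ (N : ℕ) (F : ℕ → List Til),
      (((List.range N).flatMap F).map g).sum = ∑ k ∈ range N, ((F k).map g).sum := by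
    intro N F
    induction N with
    | zero => simp
    | succ N ih =>
      rw [List.range_succ, List.flatMap_append, List.map_append, List.sum_append, ih,
        Finset.sum_range_succ]
      simp
  have key2 : ∀ (N : ℕ) (f : ℕ → Til),
      (((List.range N).map f).map g).sum = ∑ k ∈ range N, g (f k) := by
    intro N f
    induction N with
    | zero => simp
    | succ N ih =>
      rw [List.range_succ, List.map_append, List.map_append, List.sum_append, ih,
        Finset.sum_range_succ]
      simp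
  unfold tiles
  rw [List.map_append, List.map_append, List.map_append, List.sum_append, List.sum_append,
    List.sum_append, key, key, key, key]
  simp only [idTiles, filTiles, bigTiles, key2]
  have h4 : ∀ u, (((List.range O.V).flatMap (O.smTiles u)).map g).sum =
      ∑ v ∈ range O.V, ∑ d ∈ range (O.W u v * (O.r u * O.r v)), g (.Sm u v d) := by
    intro u
    rw [key]
    simp only [smTiles, key2]
  simp only [h4]
  ring

variable {O}

theorem Good.X_pos (hO : O.Good) : 0 < O.X := Nat.mul_pos hO.p_pos hO.Y_pos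

theorem Good.r_pos (hO : O.Good) (v : ℕ) : 0 < O.r v := (hO.prime v).pos

theorem Good.loc_pos (hO : O.Good) (t : Til) : 0 < O.loc t := by
  have hX := hO.X_pos
  have hY := hO.Y_pos
  cases t with
  | Id v _ => exact hO.r_pos v
  | Fil v _ => exact Nat.mul_pos (hO.r_pos v) hX
  | Big i _ => exact Nat.mul_pos (Nat.mul_pos (hO.r_pos _) (hO.r_pos _)) hY
  | Sm u v _ => exact Nat.mul_pos (Nat.mul_pos (hO.r_pos _) (hO.r_pos _)) hX

theorem Good.modulus_pos (hO : O.Good) (t : Til) : 0 < O.modulus t :=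
  Nat.mul_pos hO.V_pos (hO.loc_pos t)

end Ori
end Pool.Agent.H.MP_84f0af_lc.Strong
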