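import Pool.Agent.H.MP_84f0af_lc.Strong.Dens

/-!
Completeness: a solution of the orientation problem gives pairwise disjoint residue classes.
-/

namespace Pool.Agent.H.MP_84f0af_lc.Strong

open Finset

theorem digit {x a b M m : ℕ} (hM : 0 < M) (ha : a < M) (h : x ≡ a + M * b [MOD M * m]) :
    x % M = a ∧ x / M ≡ b [MOD m] := by
  constructor
  · have h1 : x ≡ a + M * b [MOD M] := h.of_dvd (Dvd.intro _ rfl)
    unfold Nat.ModEq at h1
    rw [h1, Nat.add_mul_mod_self_left, Nat.mod_eq_of_lt ha]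
  · unfold Nat.ModEq at h ⊢
    rw [← Nat.mod_mul_right_div_self, h, Nat.mod_mul_right_div_self, Nat.add_mul_div_left _ _ hM,
      Nat.div_eq_of_lt ha, Nat.zero_add]

/-- numbers in blocks -/
theorem prefix_inj (T : ℕ → ℕ) {u u' k k' : ℕ} (hk : k < T u) (hk' : k' < T u')
    (h : ∑ w ∈ range u, T w + k = ∑ w ∈ range u', T w + k') : u = u' ∧ k = k' := by
  have mono : ∀ a b, a < b → ∑ w ∈ range a, T w + T a ≤ ∑ w ∈ range b, T w := by
    intro a b hab
    rw [← Finset.sum_range_succ]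
    exact Finset.sum_le_sum_of_subset (Finset.range_subset_range.2 hab)
  rcases Nat.lt_trichotomy u u' with h1 | h1 | h1
  · have := mono u u' h1
    omega
  · subst h1
    exact ⟨rfl, by omega⟩
  · have := mono u' u h1
    omega

namespace Ori

variable (O : Ori) (β : ℕ → ℕ) (α : ℕ → ℕ → ℕ)

/-- number of the units between `v` and `u` directed towards `v` -/
def Tq (v u : ℕ) : ℕ := α v u + (O.W u v - α u v)

def pre (v u : ℕ) : ℕ := ∑ w ∈ range u, O.Tq α v w

/-- number of classes modulo `Y` used by the big edge -/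
def A (v : ℕ) : ℕ := O.r v * O.inB β v

/-- the slots of the lane `v` -/
def slot (v e : ℕ) : ℕ := O.Y * (e / (O.Y - O.A β v)) + (O.A β v + e % (O.Y - O.A β v))

def lane : Til → ℕ
  | .Id v _ => v
  | .Fil v _ => v
  | .Big i _ => if β i = 1 then 2 * i else 2 * i + 1
  | .Sm u v d => if d / (O.r u * O.r v) < α u v then u else v

def oth : Til → ℕ
  | .Id v _ => v
  | .Fil v _ => v
  | .Big i _ => if β i = 1 then 2 * i + 1 else 2 * i
  | .Sm u v d => if d / (O.r u * O.r v) < α u v then v else u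

/-- number of the unit among the units between the lane and the other lane which are directed
towards the lane -/
def kap : Til → ℕ
  | .Sm u v d => if d / (O.r u * O.r v) < α u v then d / (O.r u * O.r v)
      else d / (O.r u * O.r v) - α u v
  | _ => 0

def rem : Til → ℕ
  | .Sm u v d => d % (O.r u * O.r v)
  | .Big _ d => d
  | _ => 0

def idx : Til → ℕ
  | .Fil v d => O.r v * O.pre α v O.V + d
  | .Sm u v d => O.rem (.Sm u v d) % O.r (O.lane β α (.Sm u v d)) + O.r (O.lane β α (.Sm u v d)) *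
      (O.pre α (O.lane β α (.Sm u v d)) (O.oth β α (.Sm u v d)) + O.kap α (.Sm u v d))
  | _ => 0

def zz : Til → ℕ
  | .Id _ _ => 0
  | .Fil v d => O.slot β v (O.idx β α (.Fil v d))
  | .Sm u v d => O.slot β (O.lane β α (.Sm u v d)) (O.idx β α (.Sm u v d)) +
      O.X * (O.rem (.Sm u v d) / O.r (O.lane β α (.Sm u v d)))
  | .Big i d => d % O.r (O.lane β α (.Big i d)) + O.Y * (d / O.r (O.lane β α (.Big i d)))

/-- the residue of the tile -/
def res : Til → ℕ
  | .Id v d => v + O.V * (d + 1)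
  | .Fil v d => v + O.V * (0 + O.r v * O.zz β α (.Fil v d))
  | .Big i d => O.lane β α (.Big i d) + O.V * (0 + O.r (O.lane β α (.Big i d)) *
      O.zz β α (.Big i d))
  | .Sm u v d => O.lane β α (.Sm u v d) + O.V * (0 + O.r (O.lane β α (.Sm u v d)) *
      O.zz β α (.Sm u v d))

/-- solutions -/
structure IsSol : Prop where
  β1 : ∀ i, β i ≤ 1
  α1 : ∀ u v, α u v ≤ O.W u v
  eq : ∀ v < O.V, O.p * O.inB β v + ∑ u ∈ range O.V, α v u + ∑ u ∈ range O.V, (O.W u v - α u v)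
      = O.c v

variable {O β α}

theorem IsSol.pre_eq (hS : O.IsSol β α) {v : ℕ} (hv : v < O.V) :
    O.p * O.inB β v + O.pre α v O.V = O.c v := by
  have := hS.eq v hv
  unfold pre Tq
  rw [Finset.sum_add_distrib]
  omega

theorem IsSol.inB_le (hS : O.IsSol β α) (v : ℕ) : O.inB β v ≤ 1 := by
  unfold inB
  split_ifs
  · exact hS.β1 _
  · omega
  · omega

theorem IsSol.A_le (hO : O.Good) (hS : O.IsSol β α) {v : ℕ} (hv : v < O.V) : O.A β v ≤ O.Y := by
  unfold A
  have h1 := hS.inB_le v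
  have h2 := hO.big v hv
  calc O.r v * O.inB β v ≤ O.r v * 1 := Nat.mul_le_mul_left _ h1
    _ ≤ O.Y := by omega

/-- the number of slots -/
theorem IsSol.slots (hO : O.Good) (hS : O.IsSol β α) {v : ℕ} (hv : v < O.V) :
    O.r v * O.pre α v O.V + (O.X - O.r v * O.c v) = O.p * (O.Y - O.A β v) := by
  have h1 := hS.pre_eq hv
  have h2 := hO.cap v hv
  have h3 : O.r v * O.c v = O.p * O.A β v + O.r v * O.pre α v O.V := by
    rw [← h1]; unfold A; ring
  have h4 : O.p * O.A β v ≤ O.X := by omega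
  rw [Nat.mul_sub]
  unfold X at *
  omega

theorem slot_inj (hO : O.Good) (hS : O.IsSol β α) {v : ℕ} (hv : v < O.V) {e e' : ℕ}
    (h : O.slot β v e = O.slot β v e') : e = e' := by
  have hA := hS.A_le hO hv
  have hY := hO.Y_pos
  unfold slot at h
  rcases Nat.eq_zero_or_pos (O.Y - O.A β v) with h0 | h0
  · rw [h0] at h
    simp only [Nat.div_zero, Nat.mod_zero, mul_zero, Nat.zero_add] at h
    omega
  · have hlt : ∀ e, O.A β v + e % (O.Y - O.A β v) < O.Y := by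
      intro e
      have := Nat.mod_lt e h0
      omega
    have h1 : e / (O.Y - O.A β v) = e' / (O.Y - O.A β v) := by
      have h2 := congrArg (· / O.Y) h
      simp only [Nat.mul_add_div hY, Nat.div_eq_of_lt (hlt _), Nat.add_zero] at h2
      exact h2
    rw [h1] at h
    have h3 : e % (O.Y - O.A β v) = e' % (O.Y - O.A β v) := by omega
    rw [← Nat.div_add_mod e (O.Y - O.A β v), ← Nat.div_add_mod e' (O.Y - O.A β v), h1, h3]

theorem slot_lt (hS : O.IsSol β α) {v : ℕ} {e : ℕ}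
    (he : e < O.p * (O.Y - O.A β v)) : O.slot β v e < O.X ∧ O.A β v ≤ O.slot β v e % O.Y := by
  have h0 : 0 < O.Y - O.A β v := by
    rcases Nat.eq_zero_or_pos (O.Y - O.A β v) with h0 | h0
    · rw [h0] at he
      omega
    · exact h0
  have h1 := Nat.mod_lt e h0
  have hlt : O.A β v + e % (O.Y - O.A β v) < O.Y := by omega
  have h2 : e / (O.Y - O.A β v) < O.p := by
    rw [Nat.div_lt_iff_lt_mul h0]
    exact he
  unfold slot
  constructor
  · unfold X
    calc O.Y * (e / (O.Y - O.A β v)) + (O.A β v + e % (O.Y - O.A β v))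
        < O.Y * (e / (O.Y - O.A β v)) + O.Y := by omega
      _ = O.Y * (e / (O.Y - O.A β v) + 1) := by ring
      _ ≤ O.Y * O.p := Nat.mul_le_mul_left _ h2
      _ = O.p * O.Y := by ring
  · rw [Nat.mul_add_mod, Nat.mod_eq_of_lt hlt]
    omega

/-! ### the classes of the tiles -/

theorem cls_Id (hO : O.Good) {v d x : ℕ} (ht : Til.Id v d ∈ O.tiles)
    (hx : x ≡ O.res β α (.Id v d) [MOD O.modulus (.Id v d)]) :
    x % O.V = v ∧ x / O.V % O.r v = d + 1 := by
  obtain ⟨hv, hd⟩ := O.mem_Id.1 ht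
  obtain ⟨h1, h2⟩ := digit hO.V_pos hv hx
  refine ⟨h1, ?_⟩
  have h3 : x / O.V ≡ d + 1 [MOD O.r v] := h2
  unfold Nat.ModEq at h3
  rw [h3, Nat.mod_eq_of_lt (by omega)]

theorem cls_gen (hO : O.Good) {v z m x : ℕ} (hv : v < O.V)
    (hx : x ≡ v + O.V * (0 + O.r v * z) [MOD O.V * (O.r v * m)]) :
    x % O.V = v ∧ x / O.V % O.r v = 0 ∧ x / O.V / O.r v ≡ z [MOD m] := by
  obtain ⟨h1, h2⟩ := digit hO.V_pos hv hx
  obtain ⟨h3, h4⟩ := digit (hO.r_pos v) (hO.r_pos v) h2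
  exact ⟨h1, h3, h4⟩

theorem cls_Fil (hO : O.Good) (hS : O.IsSol β α) {v d x : ℕ} (ht : Til.Fil v d ∈ O.tiles)
    (hx : x ≡ O.res β α (.Fil v d) [MOD O.modulus (.Fil v d)]) :
    x % O.V = v ∧ x / O.V % O.r v = 0 ∧
      x / O.V / O.r v % O.X = O.slot β v (O.r v * O.pre α v O.V + d) := by
  obtain ⟨hv, hd⟩ := O.mem_Fil.1 ht
  obtain ⟨h1, h2, h3⟩ := cls_gen hO hv hx
  refine ⟨h1, h2, ?_⟩
  unfold Nat.ModEq at h3
  rw [h3]
  refine Nat.mod_eq_of_lt (slot_lt hS ?_).1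
  rw [← hS.slots hO hv]
  exact Nat.add_lt_add_left hd _

theorem W_pos_of_mem {u v d : ℕ} (hO : O.Good) (ht : Til.Sm u v d ∈ O.tiles) :
    u < v ∧ v < O.V := by
  obtain ⟨_, _, hd⟩ := O.mem_Sm.1 ht
  by_contra h
  rw [hO.W_zero u v h] at hd
  omega

/-- the position of a tile of a unit edge -/
theorem Sm_cases (hO : O.Good) (hS : O.IsSol β α) {u v d : ℕ} (ht : Til.Sm u v d ∈ O.tiles) :
    (O.lane β α (.Sm u v d) < O.V ∧ O.oth β α (.Sm u v d) < O.V) ∧
    O.r u * O.r v = O.r (O.lane β α (.Sm u v d)) * O.r (O.oth β α (.Sm u v d)) ∧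
    O.kap α (.Sm u v d) < O.Tq α (O.lane β α (.Sm u v d)) (O.oth β α (.Sm u v d)) ∧
    ((O.lane β α (.Sm u v d) = u ∧ O.oth β α (.Sm u v d) = v ∧
        d = O.kap α (.Sm u v d) * (O.r u * O.r v) + O.rem (.Sm u v d)) ∨
      (O.lane β α (.Sm u v d) = v ∧ O.oth β α (.Sm u v d) = u ∧
        d = (O.kap α (.Sm u v d) + α u v) * (O.r u * O.r v) + O.rem (.Sm u v d))) := by
  have huv := W_pos_of_mem hO ht
  obtain ⟨hu, hv, hd⟩ := O.mem_Sm.1 ht
  have hR : 0 < O.r u * O.r v := Nat.mul_pos (hO.r_pos _) (hO.r_pos _)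
  have hk : d / (O.r u * O.r v) < O.W u v := by rwa [Nat.div_lt_iff_lt_mul hR]
  have hα0 : α v u = 0 := by
    have h1 := hS.α1 v u
    rw [hO.W_zero v u (by omega)] at h1
    omega
  have hdm := Nat.div_add_mod d (O.r u * O.r v)
  by_cases h : d / (O.r u * O.r v) < α u v
  · simp only [lane, oth, kap, rem, if_pos h]
    refine ⟨⟨hu, hv⟩, trivial, ?_, Or.inl ⟨trivial, trivial, ?_⟩⟩
    · unfold Tq
      omega
    · rw [mul_comm]
      exact hdm.symm
  · simp only [lane, oth, kap, rem, if_neg h]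
    refine ⟨⟨hv, hu⟩, mul_comm _ _, ?_, Or.inr ⟨trivial, trivial, ?_⟩⟩
    · unfold Tq
      omega
    · have e : d / (O.r u * O.r v) - α u v + α u v = d / (O.r u * O.r v) := by omega
      rw [e, mul_comm]
      exact hdm.symm

theorem idx_lt (hO : O.Good) (hS : O.IsSol β α) {u v d : ℕ} (ht : Til.Sm u v d ∈ O.tiles) :
    O.idx β α (.Sm u v d) <
      O.r (O.lane β α (.Sm u v d)) * O.pre α (O.lane β α (.Sm u v d)) O.V := by
  obtain ⟨⟨hl, ho⟩, _, hk, _⟩ := Sm_cases hO hS ht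
  have hr := hO.r_pos (O.lane β α (.Sm u v d))
  have h1 := Nat.mod_lt (O.rem (.Sm u v d)) hr
  have h2 : O.pre α (O.lane β α (.Sm u v d)) (O.oth β α (.Sm u v d)) + O.kap α (.Sm u v d) + 1 ≤
      O.pre α (O.lane β α (.Sm u v d)) O.V := by
    have h3 : O.pre α (O.lane β α (.Sm u v d)) (O.oth β α (.Sm u v d) + 1) ≤
        O.pre α (O.lane β α (.Sm u v d)) O.V := by
      unfold pre
      exact Finset.sum_le_sum_of_subset (Finset.range_subset_range.2 ho)
    have h4 : O.pre α (O.lane β α (.Sm u v d)) (O.oth β α (.Sm u v d) + 1) =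
        O.pre α (O.lane β α (.Sm u v d)) (O.oth β α (.Sm u v d)) +
          O.Tq α (O.lane β α (.Sm u v d)) (O.oth β α (.Sm u v d)) := by
      unfold pre
      exact Finset.sum_range_succ _ _
    omega
  show O.rem (.Sm u v d) % O.r (O.lane β α (.Sm u v d)) + O.r (O.lane β α (.Sm u v d)) *
      (O.pre α (O.lane β α (.Sm u v d)) (O.oth β α (.Sm u v d)) + O.kap α (.Sm u v d)) < _
  calc O.rem (.Sm u v d) % O.r (O.lane β α (.Sm u v d)) + O.r (O.lane β α (.Sm u v d)) *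
      (O.pre α (O.lane β α (.Sm u v d)) (O.oth β α (.Sm u v d)) + O.kap α (.Sm u v d))
      < O.r (O.lane β α (.Sm u v d)) + O.r (O.lane β α (.Sm u v d)) *
      (O.pre α (O.lane β α (.Sm u v d)) (O.oth β α (.Sm u v d)) + O.kap α (.Sm u v d)) :=
        Nat.add_lt_add_right h1 _
    _ = O.r (O.lane β α (.Sm u v d)) *
      (O.pre α (O.lane β α (.Sm u v d)) (O.oth β α (.Sm u v d)) + O.kap α (.Sm u v d) + 1) := by ring
    _ ≤ _ := Nat.mul_le_mul_left _ h2

theorem cls_Sm (hO : O.Good) (hS : O.IsSol β α) {u v d x : ℕ} (ht : Til.Sm u v d ∈ O.tiles)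
    (hx : x ≡ O.res β α (.Sm u v d) [MOD O.modulus (.Sm u v d)]) {l o : ℕ}
    (hl : O.lane β α (.Sm u v d) = l) (ho : O.oth β α (.Sm u v d) = o) :
    x % O.V = l ∧ x / O.V % O.r l = 0 ∧
      x / O.V / O.r l % O.X = O.slot β l (O.idx β α (.Sm u v d)) ∧
      x / O.V / O.r l / O.X % O.r o = O.rem (.Sm u v d) / O.r l := by
  obtain ⟨⟨hlV, hoV⟩, hR, hk, _⟩ := Sm_cases hO hS ht
  have hidx := idx_lt hO hS ht
  rw [hl] at hlV hR hk hidx
  rw [ho] at hoV hR hk
  have hx' : x ≡ l + O.V * (0 + O.r l * (O.slot β l (O.idx β α (.Sm u v d)) +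
      O.X * (O.rem (.Sm u v d) / O.r l))) [MOD O.V * (O.r l * (O.X * O.r o))] := by
    have e1 : O.res β α (.Sm u v d) = l + O.V * (0 + O.r l *
        (O.slot β l (O.idx β α (.Sm u v d)) + O.X * (O.rem (.Sm u v d) / O.r l))) := by
      show O.lane β α (.Sm u v d) + O.V * (0 + O.r (O.lane β α (.Sm u v d)) *
        (O.slot β (O.lane β α (.Sm u v d)) (O.idx β α (.Sm u v d)) +
          O.X * (O.rem (.Sm u v d) / O.r (O.lane β α (.Sm u v d))))) = _
      rw [hl]
    have e2 : O.modulus (.Sm u v d) = O.V * (O.r l * (O.X * O.r o)) := by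
      rw [modulus_Sm, hR]; ring
    rw [e1, e2] at hx
    exact hx
  obtain ⟨h1, h2, h3⟩ := cls_gen hO hlV hx'
  have hs := (slot_lt (β := β) (v := l) (e := O.idx β α (.Sm u v d)) hS (by
    rw [← hS.slots hO hlV]; omega)).1
  obtain ⟨h4, h5⟩ := digit hO.X_pos hs h3
  refine ⟨h1, h2, h4, ?_⟩
  unfold Nat.ModEq at h5
  rw [h5]
  apply Nat.mod_eq_of_lt
  rw [Nat.div_lt_iff_lt_mul (hO.r_pos l), mul_comm, ← hR]
  exact Nat.mod_lt _ (Nat.mul_pos (hO.r_pos _) (hO.r_pos _))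

theorem Big_cases (hO : O.Good) (hS : O.IsSol β α) {i d : ℕ} (ht : Til.Big i d ∈ O.tiles) :
    O.lane β α (.Big i d) < O.V ∧ O.lane β α (.Big i d) / 2 = i ∧
    O.r (2 * i) * O.r (2 * i + 1) = O.r (O.lane β α (.Big i d)) * O.r (O.oth β α (.Big i d)) ∧
    O.inB β (O.lane β α (.Big i d)) = 1 := by
  obtain ⟨hi, hd⟩ := O.mem_Big.1 ht
  have h2n := hO.two_n
  by_cases h : β i = 1
  · simp only [lane, oth, if_pos h]
    refine ⟨by omega, by omega, trivial, ?_⟩
    unfold inB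
    rw [if_pos (by omega), if_pos (by omega)]
    have e : 2 * i / 2 = i := by omega
    rw [e, h]
  · simp only [lane, oth, if_neg h]
    refine ⟨by omega, by omega, mul_comm _ _, ?_⟩
    unfold inB
    rw [if_pos (by omega), if_neg (by omega)]
    have e : (2 * i + 1) / 2 = i := by omega
    have := hS.β1 i
    rw [e]
    omega

theorem cls_Big (hO : O.Good) (hS : O.IsSol β α) {i d x : ℕ} (ht : Til.Big i d ∈ O.tiles)
    (hx : x ≡ O.res β α (.Big i d) [MOD O.modulus (.Big i d)]) {l o : ℕ}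
    (hl : O.lane β α (.Big i d) = l) (ho : O.oth β α (.Big i d) = o) :
    x % O.V = l ∧ x / O.V % O.r l = 0 ∧
      x / O.V / O.r l % O.Y = d % O.r l ∧
      x / O.V / O.r l / O.Y % O.r o = d / O.r l := by
  obtain ⟨hlV, _, hR, hB⟩ := Big_cases hO hS ht
  obtain ⟨hi, hd⟩ := O.mem_Big.1 ht
  rw [hl] at hlV hR hB
  rw [ho] at hR
  have hx' : x ≡ l + O.V * (0 + O.r l * (d % O.r l + O.Y * (d / O.r l)))
      [MOD O.V * (O.r l * (O.Y * O.r o))] := by
    have e1 : O.res β α (.Big i d) = l + O.V * (0 + O.r l * (d % O.r l + O.Y * (d / O.r l))) := by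
      show O.lane β α (.Big i d) + O.V * (0 + O.r (O.lane β α (.Big i d)) *
        (d % O.r (O.lane β α (.Big i d)) + O.Y * (d / O.r (O.lane β α (.Big i d))))) = _
      rw [hl]
    have e2 : O.modulus (.Big i d) = O.V * (O.r l * (O.Y * O.r o)) := by
      rw [modulus_Big, hR]; ring
    rw [e1, e2] at hx
    exact hx
  obtain ⟨h1, h2, h3⟩ := cls_gen hO hlV hx'
  have hs : d % O.r l < O.Y := lt_of_lt_of_le (Nat.mod_lt _ (hO.r_pos l)) (hO.big l hlV)
  obtain ⟨h4, h5⟩ := digit hO.Y_pos hs h3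
  refine ⟨h1, h2, h4, ?_⟩
  unfold Nat.ModEq at h5
  rw [h5]
  apply Nat.mod_eq_of_lt
  rw [Nat.div_lt_iff_lt_mul (hO.r_pos l), mul_comm, ← hR]
  exact hd

/-! ### disjointness -/

theorem Id_Id (hO : O.Good) {v d v' d' x : ℕ} (ht : Til.Id v d ∈ O.tiles)
    (ht' : Til.Id v' d' ∈ O.tiles)
    (hx : x ≡ O.res β α (.Id v d) [MOD O.modulus (.Id v d)])
    (hx' : x ≡ O.res β α (.Id v' d') [MOD O.modulus (.Id v' d')]) :
    Til.Id v d = Til.Id v' d' := by
  obtain ⟨h1, h2⟩ := cls_Id hO ht hx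
  obtain ⟨h3, h4⟩ := cls_Id hO ht' hx'
  have : v = v' := by omega
  subst this
  have : d = d' := by omega
  rw [this]

/-- the position of a tile which is not an identifier -/
theorem cls_nonId (hO : O.Good) (hS : O.IsSol β α) {t : Til} {x : ℕ} (ht : t ∈ O.tiles)
    (hx : x ≡ O.res β α t [MOD O.modulus t]) (hn : ∀ v d, t ≠ .Id v d) :
    x / O.V % O.r (x % O.V) = 0 := by
  cases t with
  | Id v d => exact absurd rfl (hn v d)
  | Fil v d =>
    obtain ⟨h1, h2, _⟩ := cls_Fil hO hS ht hx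
    rw [h1]; exact h2
  | Big i d =>
    obtain ⟨h1, h2, _⟩ := cls_Big hO hS ht hx rfl rfl
    rw [h1]; exact h2
  | Sm u v d =>
    obtain ⟨h1, h2, _⟩ := cls_Sm hO hS ht hx rfl rfl
    rw [h1]; exact h2

theorem Id_nonId (hO : O.Good) (hS : O.IsSol β α) {t : Til} {v d x : ℕ}
    (ht : Til.Id v d ∈ O.tiles) (ht' : t ∈ O.tiles)
    (hx : x ≡ O.res β α (.Id v d) [MOD O.modulus (.Id v d)])
    (hx' : x ≡ O.res β α t [MOD O.modulus t]) (hn : ∀ v d, t ≠ .Id v d) : False := by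
  obtain ⟨h1, h2⟩ := cls_Id hO ht hx
  have h3 := cls_nonId hO hS ht' hx' hn
  rw [h1] at h3
  omega

theorem Fil_Fil (hO : O.Good) (hS : O.IsSol β α) {v d v' d' x : ℕ} (ht : Til.Fil v d ∈ O.tiles)
    (ht' : Til.Fil v' d' ∈ O.tiles)
    (hx : x ≡ O.res β α (.Fil v d) [MOD O.modulus (.Fil v d)])
    (hx' : x ≡ O.res β α (.Fil v' d') [MOD O.modulus (.Fil v' d')]) :
    Til.Fil v d = Til.Fil v' d' := by
  obtain ⟨h1, _, h2⟩ := cls_Fil hO hS ht hx
  obtain ⟨h3, _, h4⟩ := cls_Fil hO hS ht' hx'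
  have : v = v' := by omega
  subst this
  rw [h2] at h4
  have h5 := slot_inj hO hS (O.mem_Fil.1 ht).1 h4
  have : d = d' := by omega
  rw [this]

theorem Fil_Sm (hO : O.Good) (hS : O.IsSol β α) {v d u' v' d' x : ℕ}
    (ht : Til.Fil v d ∈ O.tiles) (ht' : Til.Sm u' v' d' ∈ O.tiles)
    (hx : x ≡ O.res β α (.Fil v d) [MOD O.modulus (.Fil v d)])
    (hx' : x ≡ O.res β α (.Sm u' v' d') [MOD O.modulus (.Sm u' v' d')]) : False := by
  obtain ⟨h1, _, h2⟩ := cls_Fil hO hS ht hx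
  have hidx := idx_lt hO hS ht'
  have hl : O.lane β α (.Sm u' v' d') = v := by
    rw [← (cls_Sm hO hS ht' hx' rfl rfl).1, h1]
  obtain ⟨_, _, h4, _⟩ := cls_Sm hO hS ht' hx' hl rfl
  rw [h2] at h4
  have h5 := slot_inj hO hS (O.mem_Fil.1 ht).1 h4
  rw [hl] at hidx
  omega

theorem Big_slot (hO : O.Good) (hS : O.IsSol β α) {i d e x : ℕ} (ht : Til.Big i d ∈ O.tiles)
    (hx : x ≡ O.res β α (.Big i d) [MOD O.modulus (.Big i d)])
    (h : x / O.V / O.r (x % O.V) % O.X = O.slot β (x % O.V) e)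
    (he : e < O.p * (O.Y - O.A β (x % O.V))) : False := by
  obtain ⟨_, _, _, hB⟩ := Big_cases hO hS ht
  obtain ⟨h1, _, h3, _⟩ := cls_Big hO hS ht hx rfl rfl
  rw [h1] at h he
  obtain ⟨_, h5⟩ := slot_lt hS he
  rw [← h] at h5
  have h6 : x / O.V / O.r (O.lane β α (.Big i d)) % O.X % O.Y =
      x / O.V / O.r (O.lane β α (.Big i d)) % O.Y := by
    unfold X
    exact Nat.mod_mul_left_mod _ _ _
  rw [h6, h3] at h5
  unfold A at h5
  rw [hB, mul_one] at h5
  have := Nat.mod_lt d (hO.r_pos (O.lane β α (.Big i d)))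
  omega

theorem Big_Fil (hO : O.Good) (hS : O.IsSol β α) {i d v' d' x : ℕ}
    (ht : Til.Big i d ∈ O.tiles) (ht' : Til.Fil v' d' ∈ O.tiles)
    (hx : x ≡ O.res β α (.Big i d) [MOD O.modulus (.Big i d)])
    (hx' : x ≡ O.res β α (.Fil v' d') [MOD O.modulus (.Fil v' d')]) : False := by
  obtain ⟨h1, _, h2⟩ := cls_Fil hO hS ht' hx'
  obtain ⟨hv, hd⟩ := O.mem_Fil.1 ht'
  refine Big_slot hO hS ht hx (e := O.r v' * O.pre α v' O.V + d') ?_ ?_
  · rw [h1]; exact h2
  · rw [h1, ← hS.slots hO hv]; omega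

theorem Big_Sm (hO : O.Good) (hS : O.IsSol β α) {i d u' v' d' x : ℕ}
    (ht : Til.Big i d ∈ O.tiles) (ht' : Til.Sm u' v' d' ∈ O.tiles)
    (hx : x ≡ O.res β α (.Big i d) [MOD O.modulus (.Big i d)])
    (hx' : x ≡ O.res β α (.Sm u' v' d') [MOD O.modulus (.Sm u' v' d')]) : False := by
  obtain ⟨h1, _, h2, _⟩ := cls_Sm hO hS ht' hx' rfl rfl
  have hl := (Sm_cases hO hS ht').1.1
  have hidx := idx_lt hO hS ht'
  refine Big_slot hO hS ht hx (e := O.idx β α (.Sm u' v' d')) ?_ ?_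
  · rw [h1]; exact h2
  · rw [h1, ← hS.slots hO hl]; omega

theorem Big_Big (hO : O.Good) (hS : O.IsSol β α) {i d i' d' x : ℕ}
    (ht : Til.Big i d ∈ O.tiles) (ht' : Til.Big i' d' ∈ O.tiles)
    (hx : x ≡ O.res β α (.Big i d) [MOD O.modulus (.Big i d)])
    (hx' : x ≡ O.res β α (.Big i' d') [MOD O.modulus (.Big i' d')]) :
    Til.Big i d = Til.Big i' d' := by
  obtain ⟨_, hi, _, _⟩ := Big_cases hO hS ht
  obtain ⟨_, hi', _, _⟩ := Big_cases hO hS ht'
  obtain ⟨h1, _, h3, h4⟩ := cls_Big hO hS ht hx rfl rfl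
  obtain ⟨h1', _, h3', h4'⟩ := cls_Big hO hS ht' hx' rfl rfl
  have hii : i = i' := by rw [← hi, ← hi', ← h1, ← h1']
  subst hii
  have hl : O.lane β α (.Big i d) = O.lane β α (.Big i d') := by rw [← h1, ← h1']
  have ho : O.oth β α (.Big i d) = O.oth β α (.Big i d') := rfl
  rw [hl] at h3 h4
  rw [ho] at h4
  have e1 : d % O.r (O.lane β α (.Big i d')) = d' % O.r (O.lane β α (.Big i d')) := by
    rw [← h3, ← h3']
  have e2 : d / O.r (O.lane β α (.Big i d')) = d' / O.r (O.lane β α (.Big i d')) := by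
    rw [← h4, ← h4']
  have e3 : d = d' := by
    have a1 := Nat.div_add_mod d (O.r (O.lane β α (.Big i d')))
    have a2 := Nat.div_add_mod d' (O.r (O.lane β α (.Big i d')))
    rw [e1, e2] at a1
    exact a1.symm.trans a2
  rw [e3]

theorem Sm_Sm (hO : O.Good) (hS : O.IsSol β α) {u v d u' v' d' x : ℕ}
    (ht : Til.Sm u v d ∈ O.tiles) (ht' : Til.Sm u' v' d' ∈ O.tiles)
    (hx : x ≡ O.res β α (.Sm u v d) [MOD O.modulus (.Sm u v d)])
    (hx' : x ≡ O.res β α (.Sm u' v' d') [MOD O.modulus (.Sm u' v' d')]) :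
    Til.Sm u v d = Til.Sm u' v' d' := by
  obtain ⟨⟨hl, _⟩, _, hk, hc⟩ := Sm_cases hO hS ht
  obtain ⟨⟨hl', _⟩, _, hk', hc'⟩ := Sm_cases hO hS ht'
  obtain ⟨h1, _, h3, h4⟩ := cls_Sm hO hS ht hx rfl rfl
  obtain ⟨h1', _, h3', h4'⟩ := cls_Sm hO hS ht' hx' rfl rfl
  have huv := W_pos_of_mem hO ht
  have huv' := W_pos_of_mem hO ht'
  have hll : O.lane β α (.Sm u v d) = O.lane β α (.Sm u' v' d') := by rw [← h1, ← h1']
  have hidx : O.idx β α (.Sm u v d) = O.idx β α (.Sm u' v' d') := by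
    rw [hll] at h3
    rw [h3] at h3'
    exact slot_inj hO hS hl' h3'
  have hrem1 : O.rem (.Sm u v d) % O.r (O.lane β α (.Sm u v d)) +
      O.r (O.lane β α (.Sm u v d)) *
      (O.pre α (O.lane β α (.Sm u v d)) (O.oth β α (.Sm u v d)) + O.kap α (.Sm u v d)) =
      O.rem (.Sm u' v' d') % O.r (O.lane β α (.Sm u' v' d')) +
      O.r (O.lane β α (.Sm u' v' d')) *
      (O.pre α (O.lane β α (.Sm u' v' d')) (O.oth β α (.Sm u' v' d')) +
        O.kap α (.Sm u' v' d')) := hidx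
  rw [hll] at hrem1 hk h4
  set l := O.lane β α (.Sm u' v' d') with hldef
  have hr := hO.r_pos l
  have m1 := Nat.mod_lt (O.rem (.Sm u v d)) hr
  have m2 := Nat.mod_lt (O.rem (.Sm u' v' d')) hr
  have hdiv := congrArg (· / O.r l) hrem1
  simp only [Nat.add_mul_div_left _ _ hr, Nat.div_eq_of_lt m1, Nat.div_eq_of_lt m2,
    Nat.zero_add] at hdiv
  have hmod : O.rem (.Sm u v d) % O.r l = O.rem (.Sm u' v' d') % O.r l := by
    rw [hdiv] at hrem1
    exact Nat.add_right_cancel hrem1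
  obtain ⟨ho, hkk⟩ := prefix_inj (O.Tq α l) hk hk' hdiv
  rw [ho] at h4
  have hrem : O.rem (.Sm u v d) = O.rem (.Sm u' v' d') := by
    have h5 : O.rem (.Sm u v d) / O.r l = O.rem (.Sm u' v' d') / O.r l := by
      rw [← h4, ← h4']
    have a1 := Nat.div_add_mod (O.rem (.Sm u v d)) (O.r l)
    have a2 := Nat.div_add_mod (O.rem (.Sm u' v' d')) (O.r l)
    rw [hmod, h5] at a1
    exact a1.symm.trans a2
  rcases hc with ⟨c1, c2, c3⟩ | ⟨c1, c2, c3⟩ <;> rcases hc' with ⟨c1', c2', c3'⟩ | ⟨c1', c2', c3'⟩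
  · have : u = u' := c1.symm.trans (hll.trans c1')
    subst this
    have : v = v' := c2.symm.trans (ho.trans c2')
    subst this
    rw [c3, c3', hkk, hrem]
  · exfalso; omega
  · exfalso; omega
  · have : u = u' := c2.symm.trans (ho.trans c2')
    subst this
    have : v = v' := c1.symm.trans (hll.trans c1')
    subst this
    rw [c3, c3', hkk, hrem]

theorem disjoint (hO : O.Good) (hS : O.IsSol β α) {s t : Til} {x : ℕ} (hs : s ∈ O.tiles)
    (ht : t ∈ O.tiles) (hx : x ≡ O.res β α s [MOD O.modulus s])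
    (hx' : x ≡ O.res β α t [MOD O.modulus t]) : s = t := by
  cases s with
  | Id v d =>
    cases t with
    | Id v' d' => exact Id_Id hO hs ht hx hx'
    | Fil v' d' => exact (Id_nonId hO hS hs ht hx hx' (fun _ _ h => by cases h)).elim
    | Big i' d' => exact (Id_nonId hO hS hs ht hx hx' (fun _ _ h => by cases h)).elim
    | Sm u' v' d' => exact (Id_nonId hO hS hs ht hx hx' (fun _ _ h => by cases h)).elim
  | Fil v d =>
    cases t with
    | Id v' d' => exact (Id_nonId hO hS ht hs hx' hx (fun _ _ h => by cases h)).elim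
    | Fil v' d' => exact Fil_Fil hO hS hs ht hx hx'
    | Big i' d' => exact (Big_Fil hO hS ht hs hx' hx).elim
    | Sm u' v' d' => exact (Fil_Sm hO hS hs ht hx hx').elim
  | Big i d =>
    cases t with
    | Id v' d' => exact (Id_nonId hO hS ht hs hx' hx (fun _ _ h => by cases h)).elim
    | Fil v' d' => exact (Big_Fil hO hS hs ht hx hx').elim
    | Big i' d' => exact Big_Big hO hS hs ht hx hx'
    | Sm u' v' d' => exact (Big_Sm hO hS hs ht hx hx').elim
  | Sm u v d =>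
    cases t with
    | Id v' d' => exact (Id_nonId hO hS ht hs hx' hx (fun _ _ h => by cases h)).elim
    | Fil v' d' => exact (Fil_Sm hO hS ht hs hx' hx).elim
    | Big i' d' => exact (Big_Sm hO hS ht hs hx' hx).elim
    | Sm u' v' d' => exact Sm_Sm hO hS hs ht hx hx'

theorem complete (hO : O.Good) (h : O.Sol) :
    SchedF (fun t : {t // t ∈ O.tiles} => O.modulus t.1) := by
  obtain ⟨β, α, h1, h2, h3⟩ := h
  have hS : O.IsSol β α := ⟨h1, h2, h3⟩
  have : Nonempty {t // t ∈ O.tiles} := ⟨⟨.Id 0 0, O.mem_Id.2 ⟨hO.V_pos, by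
    have := (hO.prime 0).two_le; omega⟩⟩⟩
  refine schedF_of_classes (fun t => hO.modulus_pos t.1) (fun t => O.res β α t.1) ?_
  intro s t x hx hx'
  exact Subtype.ext (disjoint hO hS s.2 t.2 hx hx')

end Ori
end Pool.Agent.H.MP_84f0af_lc.Strong
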