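import Pool.Agent.H.MP_84f0af_lc.Strong.Sound
import Pool.Agent.H.MP_84f0af_lc.Strong.Complete

/-!
The instance is schedulable exactly when the orientation problem is solvable.
-/

namespace Pool.Agent.H.MP_84f0af_lc.Strong
namespace Ori
variable {O : Ori}

theorem density_sub (hO : O.Good) :
    ∑ t : {t // t ∈ O.tiles}, (1 : ℚ) / (O.modulus t.1 : ℚ) = 1 := by
  have h := density hO
  rw [← List.sum_toFinset _ O.nodup_tiles] at h
  exact (Finset.sum_subtype O.tiles.toFinset (fun _ => List.mem_toFinset)
    (fun t => (1 : ℚ) / (O.modulus t : ℚ))).symm.trans h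

theorem schedulable_iff_sol (hO : O.Good) : Schedulable O.periods ↔ O.Sol := by
  unfold periods
  rw [schedulable_map_iff O.tiles O.nodup_tiles O.modulus]
  constructor
  · rintro ⟨s, hs⟩
    classical
    have hb : ∀ t : {t // t ∈ O.tiles}, 0 < O.modulus t.1 := fun t => hO.modulus_pos t.1
    have hd := density_sub hO
    have hpt : ∀ t : {t // t ∈ O.tiles}, ∃ x, s x = t := fun t => by
      obtain ⟨j, _, hj⟩ := hs t 0
      exact ⟨0 + j, hj⟩
    choose r hr using hpt
    refine sound hO (ρ := fun t => if h : t ∈ O.tiles then r ⟨t, h⟩ else 0) ?_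
    intro u hu v hv huv
    simp only [dif_pos hu, dif_pos hv] at huv
    have := sched_key hb hd hs (hr ⟨u, hu⟩) (hr ⟨v, hv⟩) huv
    exact congrArg Subtype.val this
  · exact complete hO

end Ori
end Pool.Agent.H.MP_84f0af_lc.Strong
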