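import Pool.Agent.H.MP_84f0af_lc.Strong.Base

/-!
The density of the instance is one.
-/

namespace Pool.Agent.H.MP_84f0af_lc.Strong
namespace Ori

open Finset

variable {O : Ori}

theorem density (hO : O.Good) : (O.tiles.map fun t => (1 : ℚ) / (O.modulus t : ℚ)).sum = 1 := by
  have hV : (O.V : ℚ) ≠ 0 := by have := hO.V_pos; positivity
  have hX : (O.X : ℚ) ≠ 0 := by have := hO.X_pos; positivity
  have hY : (O.Y : ℚ) ≠ 0 := by have := hO.Y_pos; positivity
  have hp : (O.p : ℚ) ≠ 0 := by have := hO.p_pos; positivity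
  have hr : ∀ v, (O.r v : ℚ) ≠ 0 := fun v => by have := hO.r_pos v; positivity
  have hXY : (O.X : ℚ) = O.p * O.Y := by unfold X; push_cast; ring
  rw [O.sum_tiles]
  have e1 : ∀ v ∈ range O.V, ∑ d ∈ range (O.r v - 1), (1 : ℚ) / (O.modulus (.Id v d) : ℚ) =
      1 / O.V - 1 / (O.V * O.r v) := by
    intro v _
    simp only [modulus_Id]
    rw [Finset.sum_const, card_range, nsmul_eq_mul]
    have h1 : 1 ≤ O.r v := hO.r_pos v
    push_cast [h1]
    have := hr v
    field_simp
  have e2 : ∀ v ∈ range O.V, ∑ d ∈ range (O.X - O.r v * O.c v),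
      (1 : ℚ) / (O.modulus (.Fil v d) : ℚ) = 1 / (O.V * O.r v) - (O.c v : ℚ) / (O.V * O.X) := by
    intro v hv
    simp only [modulus_Fil]
    rw [Finset.sum_const, card_range, nsmul_eq_mul]
    have h1 := hO.cap v (mem_range.1 hv)
    push_cast [h1]
    have := hr v
    field_simp
  have e3 : ∀ i ∈ range O.n, ∑ d ∈ range (O.r (2 * i) * O.r (2 * i + 1)),
      (1 : ℚ) / (O.modulus (.Big i d) : ℚ) = (O.p : ℚ) / (O.V * O.X) := by
    intro i _
    simp only [modulus_Big]
    rw [Finset.sum_const, card_range, nsmul_eq_mul, hXY]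
    push_cast
    have := hr (2 * i)
    have := hr (2 * i + 1)
    field_simp
  have e4 : ∀ u ∈ range O.V, ∀ v ∈ range O.V, ∑ d ∈ range (O.W u v * (O.r u * O.r v)),
      (1 : ℚ) / (O.modulus (.Sm u v d) : ℚ) = (O.W u v : ℚ) / (O.V * O.X) := by
    intro u _ v _
    simp only [modulus_Sm]
    rw [Finset.sum_const, card_range, nsmul_eq_mul]
    push_cast
    have := hr u
    have := hr v
    field_simp
  rw [Finset.sum_congr rfl e1, Finset.sum_congr rfl e2, Finset.sum_congr rfl e3,
    Finset.sum_congr rfl fun u hu => Finset.sum_congr rfl (e4 u hu)]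
  simp only [Finset.sum_sub_distrib, Finset.sum_const, card_range, nsmul_eq_mul,
    ← Finset.sum_div]
  have hs : (∑ v ∈ range O.V, (O.c v : ℚ)) =
      O.n * O.p + ∑ u ∈ range O.V, ∑ v ∈ range O.V, (O.W u v : ℚ) := by
    have := hO.sum_c
    exact_mod_cast this
  rw [hs]
  field_simp
  ring

end Ori
end Pool.Agent.H.MP_84f0af_lc.Strong
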