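import Pool.Agent.H.MP_84f0af_lc.Strong.FromFml
import Pool.Agent.H.MP_84f0af_lc.CookLevin

/-!
Writing the instance attached to a formula.
-/

namespace Pool.Agent.H.MP_84f0af_lc.Strong

open Function

variable {Γ₀ Γ₁ : Type}

section
variable {σ : Type} [Env σ Γ₀]

theorem uf_pp {n m : σ → ℕ} (hn : UF Γ₁ n) (hm : UF Γ₁ m) :
    UF Γ₁ (fun t => pp (n t) (m t)) :=
  (((UF.const 2).mul hn).add hm).add (UF.const 4)

theorem uf_r {n m f : σ → ℕ} (hn : UF Γ₁ n) (hm : UF Γ₁ m) (hf : UF Γ₁ f) :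
    UF Γ₁ (fun t => Nat.nth Nat.Prime (f t + pp (n t) (m t))) :=
  UF.nthPrime (f := fun t => f t + pp (n t) (m t)) (hf.add (uf_pp hn hm))

theorem uf_card {a b c : σ → ℕ} (ha : UF Γ₁ a) (hb : UF Γ₁ b) (hc : UF Γ₁ c) :
    UF Γ₁ (fun t => ({a t, b t, c t} : Finset ℕ).card) := by
  refine ((UF.const 1).add ((UF.ite (UP.eq hb ha) (UF.const 0) (UF.const 1)).add
    (UF.ite ((UP.eq hc ha).or (UP.eq hc hb)) (UF.const 0) (UF.const 1)))).congr fun t => ?_
  rw [Finset.card_eq_sum_ones, sum_three]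

theorem up_mem {a b c u : σ → ℕ} (ha : UF Γ₁ a) (hb : UF Γ₁ b) (hc : UF Γ₁ c) (hu : UF Γ₁ u) :
    UP Γ₁ (fun t => u t ∈ ({a t, b t, c t} : Finset ℕ)) :=
  ((UP.eq hu ha).or ((UP.eq hu hb).or (UP.eq hu hc))).congr fun t => by
    simp only [Finset.mem_insert, Finset.mem_singleton]

/-- the clauses -/
def cls (a b c : ℕ × σ → ℕ) (t : σ) (j : ℕ) : Finset ℕ := {a (j, t), b (j, t), c (j, t)}

theorem uf_kk {m : σ → ℕ} {a b c : ℕ × σ → ℕ} {u : σ → ℕ} (hm : UF Γ₁ m) (ha : UF Γ₁ a)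
    (hb : UF Γ₁ b) (hc : UF Γ₁ c) (hu : UF Γ₁ u) :
    UF Γ₁ (fun t => kk (m t) (cls a b c t) (u t)) := by
  have h1 : UF Γ₁ (fun p : ℕ × σ => if u p.2 ∈ ({a p, b p, c p} : Finset ℕ) then 1 else 0) :=
    UF.ite (up_mem ha hb hc hu.weak) (UF.const 1) (UF.const 0)
  exact (UF.sum h1 hm).congr fun t => rfl

theorem uf_W {n m : σ → ℕ} {a b c : ℕ × σ → ℕ} {u v : σ → ℕ} (hn : UF Γ₁ n) (hm : UF Γ₁ m)
    (ha : UF Γ₁ a) (hb : UF Γ₁ b) (hc : UF Γ₁ c) (hu : UF Γ₁ u) (hv : UF Γ₁ v) :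
    UF Γ₁ (fun t => WW (n t) (m t) (cls a b c t) (u t) (v t)) := by
  have h2n : UF Γ₁ (fun t => 2 * n t) := (UF.const 2).mul hn
  have hnm : UF Γ₁ (fun t => 2 * n t + m t) := h2n.add hm
  have hv' : UF Γ₁ (fun t => v t - 2 * n t) := hv.sub h2n
  have hu' : UF Γ₁ (fun t => u t - 2 * n t) := hu.sub h2n
  refine (UF.ite (UP.lt hu h2n)
    (UF.ite (UP.lt hv h2n) (UF.const 0) (UF.ite (UP.lt hv hnm)
      (UF.ite (up_mem (UF.comp ha hv') (UF.comp hb hv') (UF.comp hc hv') hu) (UF.const 1)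
        (UF.const 0))
      (UF.ite (UP.eq hv hnm) ((uf_pp hn hm).sub (uf_kk hm ha hb hc hu)) (UF.const 0))))
    (UF.ite (UP.lt hu hnm) (UF.ite (UP.eq hv hnm)
      ((uf_card (UF.comp ha hu') (UF.comp hb hu') (UF.comp hc hu')).sub (UF.const 1))
      (UF.const 0)) (UF.const 0))).congr fun t => ?_
  rfl

theorem uf_c {n m : σ → ℕ} {a b c : ℕ × σ → ℕ} {v : σ → ℕ} (hn : UF Γ₁ n) (hm : UF Γ₁ m)
    (ha : UF Γ₁ a) (hb : UF Γ₁ b) (hc : UF Γ₁ c) (hv : UF Γ₁ v) :
    UF Γ₁ (fun t => cc (n t) (m t) (cls a b c t) (v t)) := by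
  have h2n : UF Γ₁ (fun t => 2 * n t) := (UF.const 2).mul hn
  have hnm : UF Γ₁ (fun t => 2 * n t + m t) := h2n.add hm
  have hv' : UF Γ₁ (fun t => v t - 2 * n t) := hv.sub h2n
  refine (UF.ite (UP.lt hv h2n) (uf_pp hn hm)
    (UF.ite (UP.lt hv hnm) (uf_card (UF.comp ha hv') (UF.comp hb hv') (UF.comp hc hv'))
      (UF.ite (UP.eq hv hnm) ((hn.mul (uf_pp hn hm)).sub hm) (UF.const 0)))).congr fun t => ?_
  rfl

end

/-- a code for numbers which can be written -/
def CodeOK (Γ₀ : Type) (code : ℕ → List Γ₁) : Prop :=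
  ∀ (σ : Type) [Env σ Γ₀] (f : σ → ℕ), UF Γ₁ f → Emits Γ₁ (fun t => code (f t))

variable {τ : Type} [Env τ Γ₀]

theorem Emits_rep {code : ℕ → List Γ₁} (hcode : CodeOK Γ₀ code) {σ : Type} [Env σ Γ₀]
    {k f : σ → ℕ} (hk : UF Γ₁ k) (hf : UF Γ₁ f) :
    Emits Γ₁ (fun t => (List.range (k t)).flatMap fun _ => code (f t)) :=
  Emits.loop (F := fun p => code (f p.2)) (hcode _ _ hf.weak) hk

theorem rep_flatMap (code : ℕ → List Γ₁) (N : ℕ) (f : ℕ → Til) (g : Til → ℕ) (a : ℕ)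
    (h : ∀ d, g (f d) = a) :
    (((List.range N).map f).map g).flatMap code = (List.range N).flatMap fun _ => code a := by
  rw [List.map_map, List.flatMap_map]
  congr 1
  funext d
  rw [comp_apply, h]

theorem flat3 (code : ℕ → List Γ₁) (N : ℕ) (F : ℕ → List Til) (g : Til → ℕ) :
    (((List.range N).flatMap F).map g).flatMap code =
      (List.range N).flatMap fun i => ((F i).map g).flatMap code := by
  rw [List.map_flatMap, List.flatMap_assoc]

theorem emits_periods {code : ℕ → List Γ₁} (hcode : CodeOK Γ₀ code) {n m : τ → ℕ}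
    {a b c : ℕ × τ → ℕ} (hn : UF Γ₁ n) (hm : UF Γ₁ m) (ha : UF Γ₁ a) (hb : UF Γ₁ b)
    (hc : UF Γ₁ c) :
    Emits Γ₁ (fun t => (ofF (n t) (m t) (cls a b c t)).periods.flatMap code) := by
  have hV : UF Γ₁ (fun t => 2 * n t + m t + 1) := (((UF.const 2).mul hn).add hm).succ
  have hp : UF Γ₁ (fun t => pp (n t) (m t)) := uf_pp hn hm
  have hY : UF Γ₁ (fun t => pp (n t) (m t) ^ 8) := hp.cpow 8
  have hX : UF Γ₁ (fun t => pp (n t) (m t) * pp (n t) (m t) ^ 8) := hp.mul hY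
  have hr1 : UF Γ₁ (fun p : ℕ × τ => Nat.nth Nat.Prime (p.1 + pp (n p.2) (m p.2))) :=
    uf_r hn.weak hm.weak UF.fst
  have hc1 : UF Γ₁ (fun p : ℕ × τ => cc (n p.2) (m p.2) (cls a b c p.2) p.1) :=
    (uf_c (σ := ℕ × τ) (a := fun q => a (q.1, q.2.2)) (b := fun q => b (q.1, q.2.2))
      (c := fun q => c (q.1, q.2.2)) hn.weak hm.weak
      (ha.rename (Ren.cons IsVar.fst Ren.id.weak.weak))
      (hb.rename (Ren.cons IsVar.fst Ren.id.weak.weak))
      (hc.rename (Ren.cons IsVar.fst Ren.id.weak.weak)) UF.fst).congr fun p => rfl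
  -- identifiers
  have h1 : Emits Γ₁ (fun t : τ => (List.range (2 * n t + m t + 1)).flatMap fun v =>
      (List.range (Nat.nth Nat.Prime (v + pp (n t) (m t)) - 1)).flatMap fun _ =>
        code ((2 * n t + m t + 1) * Nat.nth Nat.Prime (v + pp (n t) (m t)))) :=
    Emits.loop (F := fun p : ℕ × τ =>
      (List.range (Nat.nth Nat.Prime (p.1 + pp (n p.2) (m p.2)) - 1)).flatMap fun _ =>
        code ((2 * n p.2 + m p.2 + 1) * Nat.nth Nat.Prime (p.1 + pp (n p.2) (m p.2))))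
      (Emits_rep hcode (hr1.sub (UF.const 1)) (hV.weak.mul hr1)) hV
  -- fillers
  have h2 : Emits Γ₁ (fun t : τ => (List.range (2 * n t + m t + 1)).flatMap fun v =>
      (List.range (pp (n t) (m t) * pp (n t) (m t) ^ 8 -
        Nat.nth Nat.Prime (v + pp (n t) (m t)) * cc (n t) (m t) (cls a b c t) v)).flatMap fun _ =>
        code ((2 * n t + m t + 1) * (Nat.nth Nat.Prime (v + pp (n t) (m t)) *
          (pp (n t) (m t) * pp (n t) (m t) ^ 8)))) :=
    Emits.loop (F := fun p : ℕ × τ =>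
      (List.range (pp (n p.2) (m p.2) * pp (n p.2) (m p.2) ^ 8 -
        Nat.nth Nat.Prime (p.1 + pp (n p.2) (m p.2)) *
          cc (n p.2) (m p.2) (cls a b c p.2) p.1)).flatMap fun _ =>
        code ((2 * n p.2 + m p.2 + 1) * (Nat.nth Nat.Prime (p.1 + pp (n p.2) (m p.2)) *
          (pp (n p.2) (m p.2) * pp (n p.2) (m p.2) ^ 8))))
      (Emits_rep hcode (hX.weak.sub (hr1.mul hc1)) (hV.weak.mul (hr1.mul hX.weak))) hV
  -- big edges
  have hre : UF Γ₁ (fun p : ℕ × τ => Nat.nth Nat.Prime (2 * p.1 + pp (n p.2) (m p.2))) :=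
    uf_r (f := fun p : ℕ × τ => 2 * p.1) hn.weak hm.weak ((UF.const 2).mul UF.fst)
  have hro : UF Γ₁ (fun p : ℕ × τ => Nat.nth Nat.Prime (2 * p.1 + 1 + pp (n p.2) (m p.2))) :=
    uf_r (f := fun p : ℕ × τ => 2 * p.1 + 1) hn.weak hm.weak ((UF.const 2).mul UF.fst).succ
  have h3 : Emits Γ₁ (fun t : τ => (List.range (n t)).flatMap fun i =>
      (List.range (Nat.nth Nat.Prime (2 * i + pp (n t) (m t)) *
        Nat.nth Nat.Prime (2 * i + 1 + pp (n t) (m t)))).flatMap fun _ =>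
        code ((2 * n t + m t + 1) * (Nat.nth Nat.Prime (2 * i + pp (n t) (m t)) *
          Nat.nth Nat.Prime (2 * i + 1 + pp (n t) (m t)) * pp (n t) (m t) ^ 8))) :=
    Emits.loop (F := fun p : ℕ × τ =>
      (List.range (Nat.nth Nat.Prime (2 * p.1 + pp (n p.2) (m p.2)) *
        Nat.nth Nat.Prime (2 * p.1 + 1 + pp (n p.2) (m p.2)))).flatMap fun _ =>
        code ((2 * n p.2 + m p.2 + 1) * (Nat.nth Nat.Prime (2 * p.1 + pp (n p.2) (m p.2)) *
          Nat.nth Nat.Prime (2 * p.1 + 1 + pp (n p.2) (m p.2)) * pp (n p.2) (m p.2) ^ 8)))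
      (Emits_rep hcode (hre.mul hro) (hV.weak.mul ((hre.mul hro).mul hY.weak))) hn
  -- unit edges; the environment is `(v, u, t)`
  have hrv : UF Γ₁ (fun p : ℕ × ℕ × τ => Nat.nth Nat.Prime (p.1 + pp (n p.2.2) (m p.2.2))) :=
    uf_r hn.weak.weak hm.weak.weak UF.fst
  have hru : UF Γ₁ (fun p : ℕ × ℕ × τ => Nat.nth Nat.Prime (p.2.1 + pp (n p.2.2) (m p.2.2))) :=
    uf_r (f := fun p : ℕ × ℕ × τ => p.2.1) hn.weak.weak hm.weak.weak UF.snd
  have hW : UF Γ₁ (fun p : ℕ × ℕ × τ =>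
      WW (n p.2.2) (m p.2.2) (cls a b c p.2.2) p.2.1 p.1) :=
    (uf_W (σ := ℕ × ℕ × τ) (a := fun q => a (q.1, q.2.2.2)) (b := fun q => b (q.1, q.2.2.2))
      (c := fun q => c (q.1, q.2.2.2)) hn.weak.weak hm.weak.weak
      (ha.rename (Ren.cons IsVar.fst Ren.id.weak.weak.weak))
      (hb.rename (Ren.cons IsVar.fst Ren.id.weak.weak.weak))
      (hc.rename (Ren.cons IsVar.fst Ren.id.weak.weak.weak)) UF.snd UF.fst).congr fun p => rfl
  have h4 : Emits Γ₁ (fun t : τ => (List.range (2 * n t + m t + 1)).flatMap fun u =>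
      (List.range (2 * n t + m t + 1)).flatMap fun v =>
      (List.range (WW (n t) (m t) (cls a b c t) u v *
        (Nat.nth Nat.Prime (u + pp (n t) (m t)) * Nat.nth Nat.Prime (v + pp (n t) (m t))))).flatMap
        fun _ => code ((2 * n t + m t + 1) * (Nat.nth Nat.Prime (u + pp (n t) (m t)) *
          Nat.nth Nat.Prime (v + pp (n t) (m t)) * (pp (n t) (m t) * pp (n t) (m t) ^ 8)))) := by
    have e1 : Emits Γ₁ (fun p : ℕ × ℕ × τ =>
        (List.range (WW (n p.2.2) (m p.2.2) (cls a b c p.2.2) p.2.1 p.1 *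
          (Nat.nth Nat.Prime (p.2.1 + pp (n p.2.2) (m p.2.2)) *
            Nat.nth Nat.Prime (p.1 + pp (n p.2.2) (m p.2.2))))).flatMap
        fun _ => code ((2 * n p.2.2 + m p.2.2 + 1) *
          (Nat.nth Nat.Prime (p.2.1 + pp (n p.2.2) (m p.2.2)) *
          Nat.nth Nat.Prime (p.1 + pp (n p.2.2) (m p.2.2)) *
            (pp (n p.2.2) (m p.2.2) * pp (n p.2.2) (m p.2.2) ^ 8)))) :=
      Emits_rep hcode (hW.mul (hru.mul hrv)) (hV.weak.weak.mul ((hru.mul hrv).mul hX.weak.weak))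
    have e2 : Emits Γ₁ (fun p : ℕ × τ => (List.range (2 * n p.2 + m p.2 + 1)).flatMap fun v =>
        (List.range (WW (n p.2) (m p.2) (cls a b c p.2) p.1 v *
          (Nat.nth Nat.Prime (p.1 + pp (n p.2) (m p.2)) *
            Nat.nth Nat.Prime (v + pp (n p.2) (m p.2))))).flatMap
        fun _ => code ((2 * n p.2 + m p.2 + 1) *
          (Nat.nth Nat.Prime (p.1 + pp (n p.2) (m p.2)) *
          Nat.nth Nat.Prime (v + pp (n p.2) (m p.2)) *
            (pp (n p.2) (m p.2) * pp (n p.2) (m p.2) ^ 8)))) :=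
      Emits.loop e1 hV.weak
    exact Emits.loop e2 hV
  refine (h1.append (h2.append (h3.append h4))).congr fun t => ?_
  unfold Ori.periods Ori.tiles
  rw [List.map_append, List.map_append, List.map_append, List.flatMap_append, List.flatMap_append,
    List.flatMap_append, flat3, flat3, flat3, flat3]
  refine congrArg₂ (· ++ ·) ?_ (congrArg₂ (· ++ ·) ?_ (congrArg₂ (· ++ ·) ?_ ?_))
  · congr 1
    funext v
    exact (rep_flatMap code _ (Til.Id v) _ _ fun d => rfl).symm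
  · congr 1
    funext v
    exact (rep_flatMap code _ (Til.Fil v) _ _ fun d => rfl).symm
  · congr 1
    funext i
    exact (rep_flatMap code _ (Til.Big i) _ _ fun d => rfl).symm
  · congr 1
    funext u
    rw [flat3]
    congr 1
    funext v
    exact (rep_flatMap code _ (Til.Sm u v) _ _ fun d => rfl).symm

/-! ### codes -/

/-- unary code: strokes and a separator -/
def unCode (a : ℕ) : List (Option Bool) := List.replicate a (some true) ++ [none]

theorem unCode_ok (Γ₀ : Type) : CodeOK Γ₀ unCode := by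
  intro σ _ f hf
  have h1 : Emits (Option Bool) (fun t => (List.range (f t)).flatMap fun _ => [some true]) :=
    Emits.loop (F := fun _ => [some true]) (Emits.sym _) hf
  refine (h1.append (Emits.sym none)).congr fun t => ?_
  unfold unCode
  congr 1
  generalize f t = N
  induction N with
  | zero => rfl
  | succ N ih => rw [List.range_succ, List.flatMap_append, ih, List.replicate_succ']; simp

theorem binCode_ok (Γ₀ : Type) : CodeOK Γ₀ encNum := fun _ _ _ hf =>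
  (Emits.bits some hf).append (Emits.sym none)

/-- the orientation problem of a list of families -/
noncomputable def oriF (n m : List Γ₀ → ℕ) (ks : List (Kind Γ₀ Γ₁)) (x : List Γ₀) : Ori :=
  ofF (n x) (m x) (cls (fun p => pick (fA n) 0 ks (dec p)) (fun p => pick (fB n) 1 ks (dec p))
    (fun p => pick (fC n) 1 ks (dec p)) x)

theorem emits_oriF {code : ℕ → List Γ₁} (hcode : CodeOK Γ₀ code) {n m : List Γ₀ → ℕ}
    (hn : UF Γ₁ n) (hm : UF Γ₁ m) (ks : List (Kind Γ₀ Γ₁)) :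
    Emits Γ₁ (fun x => (oriF n m ks x).periods.flatMap code) := by
  classical
  refine emits_periods hcode hn hm (UF.dec (UF.pick _ _ (fun K => ?_) ks))
    (UF.dec (UF.pick _ _ (fun K => ?_) ks)) (UF.dec (UF.pick _ _ (fun K => ?_) ks))
  · exact (UF.ite (UP.gd hn K) K.hA (UF.const 0)).congr fun e => by unfold fA; congr
  · exact (UF.ite (UP.gd hn K) K.hB (UF.const 1)).congr fun e => by unfold fB; congr
  · exact (UF.ite (UP.gd hn K) K.hC (UF.const 1)).congr fun e => by unfold fC; congr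

theorem cls_nonempty (a b c : ℕ × List Γ₀ → ℕ) (x : List Γ₀) (j : ℕ) :
    (cls a b c x j).Nonempty := ⟨a (j, x), Finset.mem_insert_self _ _⟩

theorem famF_nonempty {n : List Γ₀ → ℕ} (m : List Γ₀ → ℕ) (ks : List (Kind Γ₀ Γ₁)) (x : List Γ₀)
    (j : ℕ) : ((famF n m ks x).cl j).Nonempty := by
  simp only [famF, mkF]
  exact ⟨_, Finset.mem_insert_self _ _⟩

theorem good_oriF {n m : List Γ₀ → ℕ} (hn1 : ∀ x, 1 ≤ n x) (ks : List (Kind Γ₀ Γ₁))
    (x : List Γ₀) : (oriF n m ks x).Good :=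
  good_ofF (hn1 x) (fun j _ => cls_nonempty _ _ _ x j) fun j hj l hl =>
    (good_famF (m := m) hn1 ks x).cl_lt j hj l hl

theorem schedulable_oriF {n m : List Γ₀ → ℕ} (hn1 : ∀ x, 1 ≤ n x) (ks : List (Kind Γ₀ Γ₁))
    (x : List Γ₀) : Schedulable (oriF n m ks x).periods ↔ (famF n m ks x).Sat := by
  have h := schedulable_iff (n := n x) (m := m x) (cl := (famF n m ks x).cl) (hn1 x)
    (fun j _ => famF_nonempty m ks x j) fun j hj l hl =>
    (good_famF (m := m) hn1 ks x).cl_lt j hj l hl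
  refine h.trans ?_
  unfold SatC Fml.Sat
  refine exists_congr fun τ => forall_congr' fun j => forall_congr' fun _ => ?_
  exact ⟨fun h _ => h, fun h => h (famF_nonempty m ks x j)⟩

end Pool.Agent.H.MP_84f0af_lc.Strong
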