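import Pool.Agent.H.MP_84f0af_lc.Strong.Core
import Pool.Agent.H.MP_84f0af_lc.Primes
import Pool.Agent.H.MP_84f0af_lc.Tiles

/-!
The orientation problem attached to a formula.

Lanes: the literals `0, ..., 2 * n - 1`, the clauses `2 * n + j`, and the hub `2 * n + m`.
-/

namespace Pool.Agent.H.MP_84f0af_lc.Strong

open Finset

section
variable (n m : ℕ) (cl : ℕ → Finset ℕ)

def pp : ℕ := 2 * n + m + 4

/-- number of clauses containing the literal `u` -/
def kk (u : ℕ) : ℕ := ∑ j ∈ range m, if u ∈ cl j then 1 else 0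

def WW (u v : ℕ) : ℕ :=
  if u < 2 * n then
    (if v < 2 * n then 0 else if v < 2 * n + m then (if u ∈ cl (v - 2 * n) then 1 else 0)
      else if v = 2 * n + m then pp n m - kk m cl u else 0)
  else if u < 2 * n + m then (if v = 2 * n + m then (cl (u - 2 * n)).card - 1 else 0)
  else 0

def cc (v : ℕ) : ℕ :=
  if v < 2 * n then pp n m else if v < 2 * n + m then (cl (v - 2 * n)).card
  else if v = 2 * n + m then n * pp n m - m else 0

noncomputable def ofF : Ori where
  V := 2 * n + m + 1
  n := n
  W := WW n m cl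
  c := cc n m cl
  p := pp n m
  Y := pp n m ^ 8
  r := fun v => Nat.nth Nat.Prime (v + pp n m)

variable {n m cl}

theorem sumV (f : ℕ → ℕ) : ∑ v ∈ range (2 * n + m + 1), f v =
    ∑ u ∈ range (2 * n), f u + ∑ j ∈ range m, f (2 * n + j) + f (2 * n + m) := by
  rw [Finset.sum_range_succ, Finset.sum_range_add]

theorem kk_le (u : ℕ) : kk m cl u ≤ m := by
  unfold kk
  calc ∑ j ∈ range m, (if u ∈ cl j then 1 else 0) ≤ ∑ _j ∈ range m, 1 :=
        Finset.sum_le_sum fun j _ => by split_ifs <;> omega
    _ = m := by simp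

theorem WW_lit {u : ℕ} (hu : u < 2 * n) : ∑ v ∈ range (2 * n + m + 1), WW n m cl u v = pp n m := by
  rw [sumV]
  have e1 : ∑ v ∈ range (2 * n), WW n m cl u v = 0 :=
    Finset.sum_eq_zero fun v hv => by
      unfold WW
      rw [if_pos hu, if_pos (mem_range.1 hv)]
  have e2 : ∑ j ∈ range m, WW n m cl u (2 * n + j) = kk m cl u := by
    unfold kk
    refine Finset.sum_congr rfl fun j hj => ?_
    unfold WW
    have := mem_range.1 hj
    rw [if_pos hu, if_neg (by omega), if_pos (by omega)]
    have e : 2 * n + j - 2 * n = j := by omega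
    rw [e]
  have e3 : WW n m cl u (2 * n + m) = pp n m - kk m cl u := by
    unfold WW
    rw [if_pos hu, if_neg (by omega), if_neg (by omega), if_pos rfl]
  rw [e1, e2, e3]
  have := kk_le (m := m) (cl := cl) u
  unfold pp
  omega

theorem WW_cl {j : ℕ} (hj : j < m) :
    ∑ v ∈ range (2 * n + m + 1), WW n m cl (2 * n + j) v = (cl j).card - 1 := by
  rw [sumV]
  have e : 2 * n + j - 2 * n = j := by omega
  have e1 : ∑ v ∈ range (2 * n), WW n m cl (2 * n + j) v = 0 :=
    Finset.sum_eq_zero fun v hv => by
      have := mem_range.1 hv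
      unfold WW
      rw [if_neg (by omega), if_pos (by omega), if_neg (by omega)]
  have e2 : ∑ i ∈ range m, WW n m cl (2 * n + j) (2 * n + i) = 0 :=
    Finset.sum_eq_zero fun i hi => by
      have := mem_range.1 hi
      unfold WW
      rw [if_neg (by omega), if_pos (by omega), if_neg (by omega)]
  have e3 : WW n m cl (2 * n + j) (2 * n + m) = (cl j).card - 1 := by
    unfold WW
    rw [if_neg (by omega), if_pos (by omega), if_pos rfl, e]
  rw [e1, e2, e3]
  omega

theorem WW_hub (v : ℕ) : WW n m cl (2 * n + m) v = 0 := by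
  unfold WW
  rw [if_neg (by omega), if_neg (by omega)]

theorem cc_sum (hn : 1 ≤ n) (hne : ∀ j < m, (cl j).Nonempty) :
    ∑ v ∈ range (2 * n + m + 1), cc n m cl v = n * pp n m +
      ∑ u ∈ range (2 * n + m + 1), ∑ v ∈ range (2 * n + m + 1), WW n m cl u v := by
  rw [sumV, sumV (fun u => ∑ v ∈ range (2 * n + m + 1), WW n m cl u v)]
  have e1 : ∑ u ∈ range (2 * n), cc n m cl u = 2 * n * pp n m := by
    rw [Finset.sum_congr rfl (g := fun _ => pp n m) fun u hu => by
      unfold cc; rw [if_pos (mem_range.1 hu)]]
    rw [Finset.sum_const, card_range, smul_eq_mul]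
  have e2 : ∑ j ∈ range m, cc n m cl (2 * n + j) = ∑ j ∈ range m, (cl j).card := by
    refine Finset.sum_congr rfl fun j hj => ?_
    have := mem_range.1 hj
    unfold cc
    rw [if_neg (by omega), if_pos (by omega)]
    have e : 2 * n + j - 2 * n = j := by omega
    rw [e]
  have e3 : cc n m cl (2 * n + m) = n * pp n m - m := by
    unfold cc
    rw [if_neg (by omega), if_neg (by omega), if_pos rfl]
  have e4 : ∑ u ∈ range (2 * n), ∑ v ∈ range (2 * n + m + 1), WW n m cl u v = 2 * n * pp n m := by
    rw [Finset.sum_congr rfl fun u hu => WW_lit (mem_range.1 hu)]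
    rw [Finset.sum_const, card_range, smul_eq_mul]
  have e5 : ∑ j ∈ range m, ∑ v ∈ range (2 * n + m + 1), WW n m cl (2 * n + j) v =
      ∑ j ∈ range m, ((cl j).card - 1) :=
    Finset.sum_congr rfl fun j hj => WW_cl (mem_range.1 hj)
  have e6 : ∑ v ∈ range (2 * n + m + 1), WW n m cl (2 * n + m) v = 0 :=
    Finset.sum_eq_zero fun v _ => WW_hub v
  have e7 : ∑ j ∈ range m, ((cl j).card - 1) + m = ∑ j ∈ range m, (cl j).card := by
    have h : ∑ j ∈ range m, (((cl j).card - 1) + 1) = ∑ j ∈ range m, (cl j).card :=
      Finset.sum_congr rfl fun j hj => by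
        have := Finset.card_pos.2 (hne j (mem_range.1 hj))
        omega
    rw [← h, Finset.sum_add_distrib]
    simp
  have h8 : m ≤ n * pp n m := by
    have h9 : pp n m ≤ n * pp n m := Nat.le_mul_of_pos_left _ hn
    have h10 : m ≤ pp n m := by unfold pp; omega
    omega
  rw [e1, e2, e3, e4, e5, e6]
  omega

theorem r_le {v : ℕ} (hv : v < 2 * n + m + 1) :
    Nat.nth Nat.Prime (v + pp n m) ≤ pp n m ^ 5 := by
  have h1 := nth_prime_le (v + pp n m)
  have h2 : v + pp n m + 1 ≤ 2 * pp n m := by unfold pp; omega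
  have h3 : 4 ≤ pp n m := by unfold pp; omega
  have h4 : 4 ^ 3 ≤ pp n m ^ 3 := Nat.pow_le_pow_left h3 3
  calc Nat.nth Nat.Prime (v + pp n m) ≤ 16 * (v + pp n m + 1) ^ 2 := h1
    _ ≤ 16 * (2 * pp n m) ^ 2 := Nat.mul_le_mul_left _ (Nat.pow_le_pow_left h2 2)
    _ = 4 ^ 3 * pp n m ^ 2 := by ring
    _ ≤ pp n m ^ 3 * pp n m ^ 2 := Nat.mul_le_mul_right _ h4
    _ = pp n m ^ 5 := by ring

theorem lt_nth_prime (k : ℕ) : k < Nat.nth Nat.Prime k := by
  have hinf := Nat.infinite_setOfPred_prime
  induction k with
  | zero => exact (Nat.nth_mem_of_infinite hinf 0 : (Nat.nth Nat.Prime 0).Prime).pos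
  | succ k ih =>
    have : Nat.nth Nat.Prime k < Nat.nth Nat.Prime (k + 1) :=
      Nat.nth_strictMono hinf (Nat.lt_succ_self k)
    omega

theorem good_ofF (hn : 1 ≤ n) (hne : ∀ j < m, (cl j).Nonempty)
    (hcl : ∀ j < m, ∀ l ∈ cl j, l < 2 * n) : (ofF n m cl).Good where
  V_pos := Nat.succ_pos _
  two_n := by show 2 * n ≤ 2 * n + m + 1; omega
  p_pos := by show 0 < pp n m; unfold pp; omega
  Y_pos := by show 0 < pp n m ^ 8; unfold pp; positivity
  prime v := Nat.nth_mem_of_infinite Nat.infinite_setOfPred_prime _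
  inj u v h := by
    have := (Nat.nth_strictMono Nat.infinite_setOfPred_prime).injective h
    omega
  cop v h := by
    have h1 : Nat.nth Nat.Prime (v + pp n m) ∣ pp n m * pp n m ^ 8 := h
    have hp : (Nat.nth Nat.Prime (v + pp n m)).Prime :=
      Nat.nth_mem_of_infinite Nat.infinite_setOfPred_prime _
    have h2 : Nat.nth Nat.Prime (v + pp n m) ∣ pp n m := by
      rw [← pow_succ'] at h1
      exact hp.dvd_of_dvd_pow h1
    have h3 := Nat.le_of_dvd (by unfold pp; omega) h2
    have h4 := lt_nth_prime (v + pp n m)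
    omega
  cap v hv := by
    have hv' : v < 2 * n + m + 1 := hv
    have h1 := r_le hv'
    have h2 : cc n m cl v ≤ pp n m ^ 2 := by
      have h3 : pp n m ≤ pp n m ^ 2 := Nat.le_self_pow (by omega) _
      unfold cc
      split_ifs with h4 h5 h6
      · exact h3
      · refine le_trans ?_ h3
        have h7 : (cl (v - 2 * n)).card ≤ (range (2 * n)).card :=
          Finset.card_le_card fun l hl => mem_range.2 (hcl _ (by omega) l hl)
        rw [card_range] at h7
        unfold pp
        omega
      · have h8 : n ≤ pp n m := by unfold pp; omega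
        calc n * pp n m - m ≤ n * pp n m := Nat.sub_le _ _
          _ ≤ pp n m * pp n m := Nat.mul_le_mul_right _ h8
          _ = pp n m ^ 2 := by ring
      · exact Nat.zero_le _
    have h9 : 1 ≤ pp n m := by unfold pp; omega
    show Nat.nth Nat.Prime (v + pp n m) * cc n m cl v ≤ pp n m * pp n m ^ 8
    calc Nat.nth Nat.Prime (v + pp n m) * cc n m cl v ≤ pp n m ^ 5 * pp n m ^ 2 :=
          Nat.mul_le_mul h1 h2
      _ = pp n m ^ 7 := by ring
      _ ≤ pp n m ^ 9 := Nat.pow_le_pow_right h9 (by omega)
      _ = pp n m * pp n m ^ 8 := by ring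
  big v hv := by
    have hv' : v < 2 * n + m + 1 := hv
    have h1 := r_le hv'
    have h9 : 1 ≤ pp n m := by unfold pp; omega
    exact h1.trans (Nat.pow_le_pow_right h9 (by omega))
  W_zero u v h := by
    have h' : ¬ (u < v ∧ v < 2 * n + m + 1) := h
    show WW n m cl u v = 0
    unfold WW
    split_ifs <;> first | rfl | omega
  W_big i hi := by
    have hi' : i < n := hi
    show WW n m cl (2 * i) (2 * i + 1) = 0
    unfold WW
    rw [if_pos (by omega), if_pos (by omega)]
  sum_c := cc_sum hn hne

/-! ### satisfiability and orientations -/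

/-- satisfiability of the formula -/
def SatC (m : ℕ) (cl : ℕ → Finset ℕ) : Prop :=
  ∃ τ : ℕ → Bool, ∀ j < m, ∃ l ∈ cl j, LitTrue τ l

theorem sol_to_sat (hne : ∀ j < m, (cl j).Nonempty) (hcl : ∀ j < m, ∀ l ∈ cl j, l < 2 * n)
    (h : (ofF n m cl).Sol) : SatC m cl := by
  obtain ⟨β, α, hβ, hα, hE⟩ := h
  have hβ' : ∀ i, β i ≤ 1 := hβ
  have hα' : ∀ u v, α u v ≤ WW n m cl u v := hα
  have hE' : ∀ v < 2 * n + m + 1, pp n m * (ofF n m cl).inB β v +
      ∑ u ∈ range (2 * n + m + 1), α v u +
      ∑ u ∈ range (2 * n + m + 1), (WW n m cl u v - α u v) = cc n m cl v := hE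
  refine ⟨fun i => decide (β i = 1), fun j hj => ?_⟩
  by_contra hcon
  push Not at hcon
  have hv : 2 * n + j < 2 * n + m + 1 := by omega
  have E := hE' (2 * n + j) hv
  have e0 : (ofF n m cl).inB β (2 * n + j) = 0 := by
    unfold Ori.inB
    rw [if_neg]
    show ¬ (2 * n + j < 2 * n)
    omega
  have e1 : ∑ u ∈ range (2 * n + m + 1), α (2 * n + j) u ≤ (cl j).card - 1 := by
    rw [← WW_cl (n := n) (cl := cl) hj]
    exact Finset.sum_le_sum fun u _ => hα' _ _
  have e2 : ∑ u ∈ range (2 * n + m + 1), (WW n m cl u (2 * n + j) - α u (2 * n + j)) = 0 := by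
    refine Finset.sum_eq_zero fun u hu => ?_
    by_cases hu2 : u < 2 * n
    · by_cases hul : u ∈ cl j
      · have hF := hcon u hul
        -- the big edge is directed away from `u`
        have hB : (ofF n m cl).inB β u = 0 := by
          unfold Ori.inB
          have hu3 : u < 2 * (ofF n m cl).n := hu2
          rw [if_pos hu3]
          unfold LitTrue at hF
          rcases Nat.mod_two_eq_zero_or_one u with h | h
          · rw [if_pos h]
            have h1 := hβ' (u / 2)
            have h2 : β (u / 2) ≠ 1 := by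
              intro h3
              apply hF
              simp [h3, h]
            omega
          · rw [if_neg (by omega)]
            have h1 := hβ' (u / 2)
            have h2 : β (u / 2) = 1 := by
              by_contra h3
              apply hF
              simp [h3, h]
            omega
        have E2 := hE' u (by omega)
        rw [hB] at E2
        have h3 : ∑ w ∈ range (2 * n + m + 1), (WW n m cl w u - α w u) = 0 := by
          refine Finset.sum_eq_zero fun w _ => ?_
          have : WW n m cl w u = 0 := by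
            unfold WW
            split_ifs <;> first | rfl | omega
          omega
        have h4 : cc n m cl u = pp n m := by unfold cc; rw [if_pos hu2]
        rw [h3, h4, mul_zero, Nat.zero_add, Nat.add_zero] at E2
        have h5 : ∑ w ∈ range (2 * n + m + 1), α u w = ∑ w ∈ range (2 * n + m + 1),
            WW n m cl u w := by rw [E2, WW_lit hu2]
        have h6 := (Finset.sum_eq_sum_iff_of_le fun w _ => hα' u w).1 h5 (2 * n + j)
          (mem_range.2 hv)
        omega
      · have : WW n m cl u (2 * n + j) = 0 := by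
          unfold WW
          rw [if_pos hu2, if_neg (by omega), if_pos (by omega)]
          have e : 2 * n + j - 2 * n = j := by omega
          rw [e, if_neg hul]
        omega
    · have : WW n m cl u (2 * n + j) = 0 := by
        unfold WW
        rw [if_neg hu2]
        split_ifs <;> first | rfl | omega
      omega
  have e3 : cc n m cl (2 * n + j) = (cl j).card := by
    unfold cc
    rw [if_neg (by omega), if_pos (by omega)]
    have e : 2 * n + j - 2 * n = j := by omega
    rw [e]
  rw [e0, e2, e3] at E
  have := Finset.card_pos.2 (hne j hj)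
  omega

theorem sum_lits (β : ℕ → ℕ) (hβ : ∀ i, β i ≤ 1) (n : ℕ) :
    ∑ v ∈ range (2 * n), (if v % 2 = 0 then β (v / 2) else 1 - β (v / 2)) = n := by
  induction n with
  | zero => simp
  | succ n ih =>
    have e : 2 * (n + 1) = 2 * n + 1 + 1 := by ring
    rw [e, Finset.sum_range_succ, Finset.sum_range_succ, ih, if_pos (by omega),
      if_neg (by omega)]
    have e1 : 2 * n / 2 = n := by omega
    have e2 : (2 * n + 1) / 2 = n := by omega
    rw [e1, e2]
    have := hβ n
    omega

/-- truth of a literal as a number -/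
def tv (τ : ℕ → Bool) (l : ℕ) : ℕ := if τ (l / 2) = decide (l % 2 = 0) then 1 else 0

theorem tv_le (τ : ℕ → Bool) (l : ℕ) : tv τ l ≤ 1 := by unfold tv; split_ifs <;> omega

theorem sat_to_sol (hn : 1 ≤ n) (hne : ∀ j < m, (cl j).Nonempty)
    (hcl : ∀ j < m, ∀ l ∈ cl j, l < 2 * n) (h : SatC m cl) : (ofF n m cl).Sol := by
  obtain ⟨τ, hτ⟩ := h
  -- number of true literals
  set T : ℕ → ℕ := fun j => ∑ l ∈ cl j, tv τ l with hT
  have hT1 : ∀ j < m, 1 ≤ T j := by
    intro j hj
    obtain ⟨l, hl, hl2⟩ := hτ j hj
    have h1 : tv τ l ≤ T j := Finset.single_le_sum (f := fun l => tv τ l)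
      (fun _ _ => Nat.zero_le _) hl
    have h2 : tv τ l = 1 := by unfold tv; exact if_pos hl2
    omega
  have hT2 : ∀ j, T j ≤ (cl j).card := by
    intro j
    calc T j ≤ ∑ _l ∈ cl j, 1 := Finset.sum_le_sum fun l _ => tv_le τ l
      _ = (cl j).card := by simp
  set β : ℕ → ℕ := fun i => if τ i = true then 1 else 0 with hβ
  set α : ℕ → ℕ → ℕ := fun u v => if u < 2 * n then (1 - tv τ u) * WW n m cl u v
    else if u < 2 * n + m ∧ v = 2 * n + m then (cl (u - 2 * n)).card - T (u - 2 * n) else 0 with hα
  have b1 : ∀ i, β i ≤ 1 := fun i => by simp only [hβ]; split_ifs <;> omega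
  have btv : ∀ v, (if v % 2 = 0 then β (v / 2) else 1 - β (v / 2)) = tv τ v := by
    intro v
    simp only [hβ, tv]
    rcases Nat.mod_two_eq_zero_or_one v with h | h
    · simp [h]
    · cases h2 : τ (v / 2) <;> simp [h]
  have a1 : ∀ u v, α u v ≤ WW n m cl u v := by
    intro u v
    simp only [hα]
    split_ifs with h1 h2
    · have := tv_le τ u
      calc (1 - tv τ u) * WW n m cl u v ≤ 1 * WW n m cl u v :=
            Nat.mul_le_mul_right _ (by omega)
        _ = WW n m cl u v := one_mul _
    · have h3 := hT1 (u - 2 * n) (by omega)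
      unfold WW
      rw [if_neg h1, if_pos h2.1, if_pos h2.2]
      omega
    · exact Nat.zero_le _
  have alit : ∀ u v, u < 2 * n → α u v = (1 - tv τ u) * WW n m cl u v := fun u v hu => by
    simp only [hα]; rw [if_pos hu]
  have ahub : ∀ v, α (2 * n + m) v = 0 := fun v => by
    simp only [hα]
    rw [if_neg (by omega), if_neg (by omega)]
  -- literal lanes
  have L1 : ∀ v < 2 * n, pp n m * (ofF n m cl).inB β v +
      ∑ u ∈ range (2 * n + m + 1), α v u +
      ∑ u ∈ range (2 * n + m + 1), (WW n m cl u v - α u v) = cc n m cl v := by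
    intro v hv
    have e0 : (ofF n m cl).inB β v = tv τ v := by
      unfold Ori.inB
      have hv3 : v < 2 * (ofF n m cl).n := hv
      rw [if_pos hv3]
      exact btv v
    have e1 : ∑ u ∈ range (2 * n + m + 1), α v u = (1 - tv τ v) * pp n m := by
      rw [← WW_lit (cl := cl) hv, Finset.mul_sum]
      exact Finset.sum_congr rfl fun u _ => alit v u hv
    have e2 : ∑ u ∈ range (2 * n + m + 1), (WW n m cl u v - α u v) = 0 := by
      refine Finset.sum_eq_zero fun w _ => ?_
      have : WW n m cl w v = 0 := by
        unfold WW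
        split_ifs <;> first | rfl | omega
      omega
    have e3 : cc n m cl v = pp n m := by unfold cc; rw [if_pos hv]
    rw [e0, e1, e2, e3]
    have := tv_le τ v
    interval_cases tv τ v <;> simp
  -- clause lanes
  have L2 : ∀ j < m, pp n m * (ofF n m cl).inB β (2 * n + j) +
      ∑ u ∈ range (2 * n + m + 1), α (2 * n + j) u +
      ∑ u ∈ range (2 * n + m + 1), (WW n m cl u (2 * n + j) - α u (2 * n + j)) =
        cc n m cl (2 * n + j) := by
    intro j hj
    have ej : 2 * n + j - 2 * n = j := by omega
    have e0 : (ofF n m cl).inB β (2 * n + j) = 0 := by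
      unfold Ori.inB
      rw [if_neg]
      show ¬ (2 * n + j < 2 * n)
      omega
    have e1 : ∑ u ∈ range (2 * n + m + 1), α (2 * n + j) u = (cl j).card - T j := by
      rw [Finset.sum_eq_single (2 * n + m)]
      · simp only [hα]
        rw [if_neg (by omega), if_pos ⟨by omega, trivial⟩, ej]
      · intro u _ hu
        simp only [hα]
        rw [if_neg (by omega), if_neg (fun h => hu h.2)]
      · intro h
        exact absurd (mem_range.2 (by omega)) h
    have e2 : ∑ u ∈ range (2 * n + m + 1), (WW n m cl u (2 * n + j) - α u (2 * n + j)) = T j := by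
      rw [sumV]
      have f1 : ∑ u ∈ range (2 * n), (WW n m cl u (2 * n + j) - α u (2 * n + j)) = T j := by
        have g1 : ∀ u ∈ range (2 * n), (WW n m cl u (2 * n + j) - α u (2 * n + j)) =
            if u ∈ cl j then tv τ u else 0 := by
          intro u hu
          have hu := mem_range.1 hu
          have hW : WW n m cl u (2 * n + j) = if u ∈ cl j then 1 else 0 := by
            unfold WW
            rw [if_pos hu, if_neg (by omega), if_pos (by omega), ej]
          rw [alit u _ hu, hW]
          have := tv_le τ u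
          by_cases hul : u ∈ cl j
          · rw [if_pos hul, if_pos hul]
            omega
          · rw [if_neg hul, if_neg hul]
            omega
        rw [Finset.sum_congr rfl g1, ← Finset.sum_filter]
        have g2 : (range (2 * n)).filter (fun u => u ∈ cl j) = cl j := by
          ext u
          rw [mem_filter, mem_range]
          exact ⟨fun h => h.2, fun h => ⟨hcl j hj u h, h⟩⟩
        rw [g2]
      have f2 : ∑ i ∈ range m, (WW n m cl (2 * n + i) (2 * n + j) -
          α (2 * n + i) (2 * n + j)) = 0 := by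
        refine Finset.sum_eq_zero fun i _ => ?_
        have : WW n m cl (2 * n + i) (2 * n + j) = 0 := by
          unfold WW
          split_ifs <;> first | rfl | omega
        omega
      rw [f1, f2, WW_hub]
      omega
    have e3 : cc n m cl (2 * n + j) = (cl j).card := by
      unfold cc
      rw [if_neg (by omega), if_pos (by omega), ej]
    rw [e0, e1, e2, e3]
    have := hT2 j
    omega
  refine ⟨β, α, b1, a1, ?_⟩
  show ∀ v < 2 * n + m + 1, pp n m * (ofF n m cl).inB β v +
      ∑ u ∈ range (2 * n + m + 1), α v u +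
      ∑ u ∈ range (2 * n + m + 1), (WW n m cl u v - α u v) = cc n m cl v
  intro v hv
  by_cases h1 : v < 2 * n
  · exact L1 v h1
  by_cases h2 : v < 2 * n + m
  · have h3 := L2 (v - 2 * n) (by omega)
    have e : 2 * n + (v - 2 * n) = v := by omega
    rwa [e] at h3
  -- the hub, by conservation
  have h3 : v = 2 * n + m := by omega
  subst h3
  set G : ℕ → ℕ := fun v => pp n m * (ofF n m cl).inB β v +
      ∑ u ∈ range (2 * n + m + 1), α v u +
      ∑ u ∈ range (2 * n + m + 1), (WW n m cl u v - α u v) with hG
  have hsum : ∑ v ∈ range (2 * n + m + 1), G v = ∑ v ∈ range (2 * n + m + 1), cc n m cl v := by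
    rw [cc_sum hn hne]
    simp only [hG, Finset.sum_add_distrib]
    have s1 : ∑ v ∈ range (2 * n + m + 1), pp n m * (ofF n m cl).inB β v = n * pp n m := by
      rw [← Finset.mul_sum, mul_comm]
      congr 1
      rw [sumV]
      have t1 : ∑ u ∈ range (2 * n), (ofF n m cl).inB β u = n := by
        refine Eq.trans (Finset.sum_congr rfl fun u hu => ?_) (sum_lits β b1 n)
        unfold Ori.inB
        have hv3 : u < 2 * (ofF n m cl).n := mem_range.1 hu
        rw [if_pos hv3]
      have t2 : ∑ j ∈ range m, (ofF n m cl).inB β (2 * n + j) = 0 := by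
        refine Finset.sum_eq_zero fun j _ => ?_
        unfold Ori.inB
        rw [if_neg]
        show ¬ (2 * n + j < 2 * n)
        omega
      have t3 : (ofF n m cl).inB β (2 * n + m) = 0 := by
        unfold Ori.inB
        rw [if_neg]
        show ¬ (2 * n + m < 2 * n)
        omega
      rw [t1, t2, t3]
      rfl
    have s2 : ∑ v ∈ range (2 * n + m + 1), ∑ u ∈ range (2 * n + m + 1), (WW n m cl u v - α u v) =
        ∑ v ∈ range (2 * n + m + 1), ∑ u ∈ range (2 * n + m + 1), (WW n m cl v u - α v u) :=
      Finset.sum_comm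
    rw [s1, s2, Nat.add_assoc, ← Finset.sum_add_distrib]
    congr 1
    refine Finset.sum_congr rfl fun v _ => ?_
    rw [← Finset.sum_add_distrib]
    refine Finset.sum_congr rfl fun u _ => ?_
    have := a1 v u
    omega
  rw [Finset.sum_range_succ, Finset.sum_range_succ] at hsum
  have heq : ∑ v ∈ range (2 * n + m), G v = ∑ v ∈ range (2 * n + m), cc n m cl v := by
    refine Finset.sum_congr rfl fun v hv => ?_
    have hv := mem_range.1 hv
    by_cases h1 : v < 2 * n
    · exact L1 v h1
    · have h3 := L2 (v - 2 * n) (by omega)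
      have e : 2 * n + (v - 2 * n) = v := by omega
      rw [e] at h3
      exact h3
  rw [heq] at hsum
  exact Nat.add_left_cancel hsum

theorem schedulable_iff (hn : 1 ≤ n) (hne : ∀ j < m, (cl j).Nonempty)
    (hcl : ∀ j < m, ∀ l ∈ cl j, l < 2 * n) :
    Schedulable (ofF n m cl).periods ↔ SatC m cl :=
  (Ori.schedulable_iff_sol (good_ofF hn hne hcl)).trans
    ⟨sol_to_sat hne hcl, sat_to_sol hn hne hcl⟩

end
end Pool.Agent.H.MP_84f0af_lc.Strong
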