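import Mathlib

/-!
Disjoint residue classes inside a residue class modulo `M`.
-/

namespace Pool.Agent.H.MP_84f0af_lc.Strong

open Finset

theorem card_class {N b r : ℕ} (hb : 0 < b) (h : b ∣ N) :
    ((range N).filter fun x => x ≡ r [MOD b]).card = N / b := by
  have h1 := Nat.count_modEq_card N hb r
  rw [Nat.count_eq_card_filter_range] at h1
  rw [h1, Nat.mod_eq_zero_of_dvd h]
  simp

theorem kraft_lane {ι : Type*} [DecidableEq ι] (T : Finset ι) (b ρ : ι → ℕ) (M : ℕ) (hM : 0 < M)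
    (hb : ∀ t ∈ T, 0 < b t) (hMb : ∀ t ∈ T, M ∣ b t)
    (H : ∀ s ∈ T, ∀ t ∈ T, ρ s ≡ ρ t [MOD Nat.gcd (b s) (b t)] → s = t) (k : ℕ) :
    ∑ t ∈ T with ρ t % M = k, (1 : ℚ) / b t ≤ 1 / M := by
  set N := M * ∏ t ∈ T, b t with hN
  have hNpos : 0 < N := Nat.mul_pos hM (Finset.prod_pos hb)
  have hbN : ∀ t ∈ T, b t ∣ N := fun t ht => (Finset.dvd_prod_of_mem b ht).mul_left M
  have hMN : M ∣ N := Dvd.intro _ rfl
  set T' := T.filter fun t => ρ t % M = k with hT'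
  let A : ι → Finset ℕ := fun t => (range N).filter fun x => x ≡ ρ t [MOD b t]
  have hdis : ∀ s ∈ T', ∀ t ∈ T', s ≠ t → Disjoint (A s) (A t) := by
    intro s hs t ht hst
    rw [Finset.disjoint_left]
    intro x hx hx'
    simp only [A, mem_filter] at hx hx'
    apply hst
    refine H s (mem_filter.1 hs).1 t (mem_filter.1 ht).1 ?_
    exact (hx.2.symm.of_dvd (Nat.gcd_dvd_left _ _)).trans (hx'.2.of_dvd (Nat.gcd_dvd_right _ _))
  have hcard : ∑ t ∈ T', N / b t ≤ N / M := by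
    have e1 : ∑ t ∈ T', N / b t = (T'.biUnion A).card := by
      rw [Finset.card_biUnion hdis]
      exact Finset.sum_congr rfl fun t ht =>
        (card_class (hb t (mem_filter.1 ht).1) (hbN t (mem_filter.1 ht).1)).symm
    rw [e1, ← card_class (r := k) hM hMN]
    apply Finset.card_le_card
    intro x hx
    obtain ⟨t, ht, hx⟩ := Finset.mem_biUnion.1 hx
    obtain ⟨ht1, ht2⟩ := mem_filter.1 ht
    simp only [A, mem_filter] at hx
    rw [mem_filter]
    refine ⟨hx.1, ?_⟩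
    have h1 : x ≡ ρ t [MOD M] := hx.2.of_dvd (hMb t ht1)
    have h2 : ρ t ≡ k [MOD M] := by
      unfold Nat.ModEq
      rw [← ht2, Nat.mod_mod]
    exact h1.trans h2
  have hNq : (0 : ℚ) < N := by exact_mod_cast hNpos
  have h3 : ∑ t ∈ T', (N : ℚ) / b t ≤ (N : ℚ) / M := by
    have e2 : ∑ t ∈ T', (N : ℚ) / b t = ((∑ t ∈ T', N / b t : ℕ) : ℚ) := by
      push_cast
      refine Finset.sum_congr rfl fun t ht => ?_
      have ht1 := (mem_filter.1 ht).1
      rw [Nat.cast_div (hbN t ht1) (by have := hb t ht1; positivity)]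
    have e3 : (N : ℚ) / M = ((N / M : ℕ) : ℚ) := by
      rw [Nat.cast_div hMN (by positivity)]
    rw [e2, e3]
    exact_mod_cast hcard
  have e4 : ∑ t ∈ T', (N : ℚ) / b t = N * ∑ t ∈ T', (1 : ℚ) / b t := by
    rw [Finset.mul_sum]
    exact Finset.sum_congr rfl fun t _ => by ring
  rw [e4, div_eq_mul_one_div] at h3
  exact le_of_mul_le_mul_left h3 hNq

theorem kraft_lane_eq {ι : Type*} [DecidableEq ι] (T : Finset ι) (b ρ : ι → ℕ) (M : ℕ)
    (hM : 0 < M) (hb : ∀ t ∈ T, 0 < b t) (hMb : ∀ t ∈ T, M ∣ b t)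
    (H : ∀ s ∈ T, ∀ t ∈ T, ρ s ≡ ρ t [MOD Nat.gcd (b s) (b t)] → s = t)
    (hsum : ∑ t ∈ T, (1 : ℚ) / b t = 1) {k : ℕ} (hk : k < M) :
    ∑ t ∈ T with ρ t % M = k, (1 : ℚ) / b t = 1 / M := by
  have h1 : ∑ j ∈ range M, ∑ t ∈ T with ρ t % M = j, (1 : ℚ) / b t = ∑ j ∈ range M, 1 / (M : ℚ) := by
    rw [Finset.sum_fiberwise_of_maps_to (g := fun t => ρ t % M)
      (fun t _ => mem_range.2 (Nat.mod_lt _ hM)), hsum, Finset.sum_const, card_range, nsmul_eq_mul]
    have : (M : ℚ) ≠ 0 := by positivity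
    field_simp
  exact (Finset.sum_eq_sum_iff_of_le fun j _ => kraft_lane T b ρ M hM hb hMb H j).1 h1 k
    (mem_range.2 hk)

/-- integrality of a sum of fractions with distinct prime denominators -/
theorem dvd_of_sum_div {U : Finset ℕ} {r N : ℕ → ℕ} (hr : ∀ u, (r u).Prime)
    (hinj : ∀ u v, r u = r v → u = v) {K : ℕ} (h : ∑ u ∈ U, (N u : ℚ) / r u = K) :
    ∀ u ∈ U, r u ∣ N u := by
  intro u₀ hu₀
  have hr0 : ∀ u, (r u : ℚ) ≠ 0 := fun u => by have := (hr u).pos; positivity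
  -- multiply by the product of all denominators
  have h1 : ∑ u ∈ U, N u * ∏ w ∈ U.erase u, r w = K * ∏ w ∈ U, r w := by
    have h2 : ∑ u ∈ U, (N u : ℚ) * ∏ w ∈ U.erase u, (r w : ℚ) = K * ∏ w ∈ U, (r w : ℚ) := by
      rw [← h, Finset.sum_mul]
      refine Finset.sum_congr rfl fun u hu => ?_
      rw [← Finset.mul_prod_erase U (fun w => (r w : ℚ)) hu]
      have := hr0 u
      field_simp
    exact_mod_cast h2
  have h3 : r u₀ ∣ ∑ u ∈ U, N u * ∏ w ∈ U.erase u, r w := by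
    rw [h1]
    exact (Finset.dvd_prod_of_mem r hu₀).mul_left K
  rw [← Finset.add_sum_erase U _ hu₀] at h3
  have h4 : r u₀ ∣ ∑ u ∈ U.erase u₀, N u * ∏ w ∈ U.erase u, r w := by
    refine Finset.dvd_sum fun u hu => ?_
    refine Dvd.dvd.mul_left ?_ _
    exact Finset.dvd_prod_of_mem r (Finset.mem_erase.2 ⟨(Finset.mem_erase.1 hu).1.symm, hu₀⟩)
  have h5 := (Nat.dvd_add_left h4).1 h3
  refine (Nat.Coprime.dvd_mul_right ?_).1 h5
  refine Nat.Coprime.prod_right fun w hw => ?_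
  rw [Nat.coprime_primes (hr u₀) (hr w)]
  intro h6
  exact (Finset.mem_erase.1 hw).1 (hinj _ _ h6).symm

end Pool.Agent.H.MP_84f0af_lc.Strong
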