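import Pool.Agent.H.MP_84f0af_lc.Strong.Dens
import Pool.Agent.H.MP_84f0af_lc.Strong.Lane

/-!
Soundness: a placement of the tiles without overlap gives a solution of the orientation problem.
-/

namespace Pool.Agent.H.MP_84f0af_lc.Strong
namespace Ori

open Finset

variable {O : Ori}

theorem same_lane (hO : O.Good) {ρ : Til → ℕ} (H : O.Placed ρ) {s t : Til} (hs : s ∈ O.tiles)
    (ht : t ∈ O.tiles) (h : ρ s % O.V = ρ t % O.V) (hc : Nat.Coprime (O.loc s) (O.loc t)) :
    s = t := by
  apply H s hs t ht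
  have e : Nat.gcd (O.modulus s) (O.modulus t) = O.V := by
    unfold modulus
    rw [Nat.gcd_mul_left, hc.gcd_eq_one, mul_one]
  rw [e]
  exact h

/-- `lam v` is the residue modulo `V` of the lane `v` -/
structure IsLam (O : Ori) (ρ : Til → ℕ) (lam : ℕ → ℕ) : Prop where
  lt : ∀ v < O.V, lam v < O.V
  inj : ∀ u < O.V, ∀ v < O.V, lam u = lam v → u = v
  mem : ∀ t ∈ O.tiles, ∃ v < O.V, ρ t % O.V = lam v ∧ O.r v ∣ O.loc t

theorem exists_lam (hO : O.Good) {ρ : Til → ℕ} (H : O.Placed ρ) : ∃ lam, IsLam O ρ lam := by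
  have hid : ∀ v < O.V, Til.Id v 0 ∈ O.tiles := fun v hv =>
    O.mem_Id.2 ⟨hv, by have := (hO.prime v).two_le; omega⟩
  have hlt : ∀ v, ρ (.Id v 0) % O.V < O.V := fun v => Nat.mod_lt _ hO.V_pos
  have hinj : ∀ u < O.V, ∀ v < O.V, ρ (.Id u 0) % O.V = ρ (.Id v 0) % O.V → u = v := by
    intro u hu v hv h
    by_contra hne
    have hc : Nat.Coprime (O.loc (.Id u 0)) (O.loc (.Id v 0)) := by
      show Nat.Coprime (O.r u) (O.r v)
      rw [Nat.coprime_primes (hO.prime u) (hO.prime v)]
      exact fun h => hne (hO.inj _ _ h)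
    have := same_lane hO H (hid u hu) (hid v hv) h hc
    simp only [Til.Id.injEq, and_true] at this
    exact hne this
  refine ⟨fun v => ρ (.Id v 0) % O.V, ⟨fun v _ => hlt v, hinj, ?_⟩⟩
  intro t ht
  have himg : (range O.V).image (fun v => ρ (.Id v 0) % O.V) = range O.V := by
    apply Finset.eq_of_subset_of_card_le
    · intro k hk
      obtain ⟨v, _, rfl⟩ := Finset.mem_image.1 hk
      exact mem_range.2 (hlt v)
    · rw [Finset.card_image_of_injOn]
      intro u hu v hv h
      exact hinj u (mem_range.1 hu) v (mem_range.1 hv) h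
  have hk : ρ t % O.V ∈ (range O.V).image (fun v => ρ (.Id v 0) % O.V) := by
    rw [himg]
    exact mem_range.2 (Nat.mod_lt _ hO.V_pos)
  obtain ⟨v, hv, hvk⟩ := Finset.mem_image.1 hk
  refine ⟨v, mem_range.1 hv, hvk.symm, ?_⟩
  by_contra hnd
  have hc : Nat.Coprime (O.loc (.Id v 0)) (O.loc t) :=
    ((hO.prime v).coprime_iff_not_dvd).2 hnd
  have := same_lane hO H (hid v (mem_range.1 hv)) ht hvk hc
  apply hnd
  rw [← this]
  exact dvd_rfl

section
variable {ρ : Til → ℕ} {lam : ℕ → ℕ}

theorem lane_Id (hO : O.Good) (hl : IsLam O ρ lam) {v d : ℕ} (h : Til.Id v d ∈ O.tiles) :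
    ρ (.Id v d) % O.V = lam v := by
  obtain ⟨w, _, h1, h2⟩ := hl.mem _ h
  have : w = v := hO.inj _ _ ((Nat.prime_dvd_prime_iff_eq (hO.prime w) (hO.prime v)).1 h2)
  rw [h1, this]

theorem lane_Fil (hO : O.Good) (hl : IsLam O ρ lam) {v d : ℕ} (h : Til.Fil v d ∈ O.tiles) :
    ρ (.Fil v d) % O.V = lam v := by
  obtain ⟨w, _, h1, h2⟩ := hl.mem _ h
  rcases ((hO.prime w).dvd_mul).1 h2 with h3 | h3
  · have : w = v := hO.inj _ _ ((Nat.prime_dvd_prime_iff_eq (hO.prime w) (hO.prime v)).1 h3)
    rw [h1, this]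
  · exact absurd h3 (hO.cop w)

theorem lane_Big (hO : O.Good) (hl : IsLam O ρ lam) {i d : ℕ} (h : Til.Big i d ∈ O.tiles) :
    ρ (.Big i d) % O.V = lam (2 * i) ∨ ρ (.Big i d) % O.V = lam (2 * i + 1) := by
  obtain ⟨w, _, h1, h2⟩ := hl.mem _ h
  rcases ((hO.prime w).dvd_mul).1 h2 with h3 | h3
  · rcases ((hO.prime w).dvd_mul).1 h3 with h4 | h4
    · have : w = 2 * i :=
        hO.inj _ _ ((Nat.prime_dvd_prime_iff_eq (hO.prime w) (hO.prime _)).1 h4)
      left; rw [h1, this]
    · have : w = 2 * i + 1 :=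
        hO.inj _ _ ((Nat.prime_dvd_prime_iff_eq (hO.prime w) (hO.prime _)).1 h4)
      right; rw [h1, this]
  · exact absurd (h3.mul_left O.p) (hO.cop w)

theorem lane_Sm (hO : O.Good) (hl : IsLam O ρ lam) {u v d : ℕ} (h : Til.Sm u v d ∈ O.tiles) :
    ρ (.Sm u v d) % O.V = lam u ∨ ρ (.Sm u v d) % O.V = lam v := by
  obtain ⟨w, _, h1, h2⟩ := hl.mem _ h
  rcases ((hO.prime w).dvd_mul).1 h2 with h3 | h3
  · rcases ((hO.prime w).dvd_mul).1 h3 with h4 | h4
    · have : w = u := hO.inj _ _ ((Nat.prime_dvd_prime_iff_eq (hO.prime w) (hO.prime _)).1 h4)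
      left; rw [h1, this]
    · have : w = v := hO.inj _ _ ((Nat.prime_dvd_prime_iff_eq (hO.prime w) (hO.prime _)).1 h4)
      right; rw [h1, this]
  · exact absurd h3 (hO.cop w)

/-- the number of tiles of the unit edges between `u` and `v` in the class `k` modulo `V` -/
def cS (O : Ori) (ρ : Til → ℕ) (u v k : ℕ) : ℕ :=
  ((range (O.W u v * (O.r u * O.r v))).filter fun d => ρ (.Sm u v d) % O.V = k).card

/-- the number of tiles of the big edge `i` in the class `k` modulo `V` -/
def cB (O : Ori) (ρ : Til → ℕ) (i k : ℕ) : ℕ :=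
  ((range (O.r (2 * i) * O.r (2 * i + 1))).filter fun d => ρ (.Big i d) % O.V = k).card

/-- the other end of the big edge at `v` -/
def st (v : ℕ) : ℕ := if v % 2 = 0 then v + 1 else v - 1

theorem cS_add (hO : O.Good) (hl : IsLam O ρ lam) {u v : ℕ} (huv : u < v) (hv : v < O.V) :
    cS O ρ u v (lam u) + cS O ρ u v (lam v) = O.W u v * (O.r u * O.r v) := by
  unfold cS
  rw [← Finset.card_union_of_disjoint, ← Finset.filter_or]
  · rw [Finset.filter_true_of_mem, card_range]
    intro d hd
    exact lane_Sm hO hl (O.mem_Sm.2 ⟨huv.trans hv, hv, mem_range.1 hd⟩)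
  · rw [Finset.disjoint_filter]
    intro d _ h1 h2
    have := hl.inj u (huv.trans hv) v hv (h1.symm.trans h2)
    omega

theorem cB_add (hO : O.Good) (hl : IsLam O ρ lam) {i : ℕ} (hi : i < O.n) :
    cB O ρ i (lam (2 * i)) + cB O ρ i (lam (2 * i + 1)) = O.r (2 * i) * O.r (2 * i + 1) := by
  have h2 := hO.two_n
  unfold cB
  rw [← Finset.card_union_of_disjoint, ← Finset.filter_or]
  · rw [Finset.filter_true_of_mem, card_range]
    intro d hd
    exact lane_Big hO hl (O.mem_Big.2 ⟨hi, mem_range.1 hd⟩)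
  · rw [Finset.disjoint_filter]
    intro d _ h1 h2
    have := hl.inj (2 * i) (by omega) (2 * i + 1) (by omega) (h1.symm.trans h2)
    omega

theorem cS_zero {u v k : ℕ} (h : O.W u v = 0) : cS O ρ u v k = 0 := by
  unfold cS
  rw [h]
  simp

theorem g_eq (O : Ori) (ρ : Til → ℕ) (k : ℕ) (N : ℕ) (f : ℕ → Til) (m : ℚ)
    (hm : ∀ d, (O.modulus (f d) : ℚ) = m) :
    (∑ d ∈ range N, if ρ (f d) % O.V = k then (1 : ℚ) / (O.modulus (f d) : ℚ) else 0) =
      (((range N).filter fun d => ρ (f d) % O.V = k).card : ℚ) / m := by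
  rw [← Finset.sum_filter]
  simp only [hm]
  rw [Finset.sum_const, nsmul_eq_mul]
  ring

/-- the density of the lane `v` -/
theorem lane_eq (hO : O.Good) (H : O.Placed ρ) (hl : IsLam O ρ lam) {v : ℕ} (hv : v < O.V) :
    (if v < 2 * O.n then ((O.p * cB O ρ (v / 2) (lam v) : ℕ) : ℚ) / O.r (st v) else 0) +
      ∑ w ∈ range O.V, ((cS O ρ v w (lam v) + cS O ρ w v (lam v) : ℕ) : ℚ) / O.r w =
      O.r v * O.c v := by
  have hV : (O.V : ℚ) ≠ 0 := by have := hO.V_pos; positivity
  have hX : (O.X : ℚ) ≠ 0 := by have := hO.X_pos; positivity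
  have hY : (O.Y : ℚ) ≠ 0 := by have := hO.Y_pos; positivity
  have hp : (O.p : ℚ) ≠ 0 := by have := hO.p_pos; positivity
  have hr : ∀ v, (O.r v : ℚ) ≠ 0 := fun v => by have := hO.r_pos v; positivity
  have hXY : (O.X : ℚ) = O.p * O.Y := by unfold X; push_cast; ring
  have h2n := hO.two_n
  -- the density equation of the lane
  have E : (O.tiles.map fun t => if ρ t % O.V = lam v then (1 : ℚ) / (O.modulus t : ℚ) else 0).sum
      = 1 / O.V := by
    have hk := kraft_lane_eq O.tiles.toFinset O.modulus ρ O.V hO.V_pos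
      (fun t _ => hO.modulus_pos t) (fun t _ => Dvd.intro _ rfl)
      (fun s hs t ht h => H s (List.mem_toFinset.1 hs) t (List.mem_toFinset.1 ht) h)
      (by rw [List.sum_toFinset _ O.nodup_tiles]; exact density hO) (hl.lt v hv)
    rw [Finset.sum_filter, List.sum_toFinset _ O.nodup_tiles] at hk
    exact hk
  rw [O.sum_tiles] at E
  -- identifiers
  have e1 : (∑ w ∈ range O.V, ∑ d ∈ range (O.r w - 1),
      if ρ (.Id w d) % O.V = lam v then (1 : ℚ) / (O.modulus (.Id w d) : ℚ) else 0) =
      ((O.r v : ℚ) - 1) / (O.V * O.r v) := by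
    rw [Finset.sum_eq_single v]
    · rw [g_eq O ρ (lam v) _ (Til.Id v) (O.V * O.r v) (fun d => by rw [modulus_Id]; push_cast; ring)]
      rw [Finset.filter_true_of_mem, card_range]
      · have h1 : 1 ≤ O.r v := hO.r_pos v
        push_cast [h1]; ring
      · intro d hd
        exact lane_Id hO hl (O.mem_Id.2 ⟨hv, mem_range.1 hd⟩)
    · intro w hw hne
      refine Finset.sum_eq_zero fun d hd => ?_
      rw [if_neg]
      intro h
      rw [lane_Id hO hl (O.mem_Id.2 ⟨mem_range.1 hw, mem_range.1 hd⟩)] at h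
      exact hne (hl.inj w (mem_range.1 hw) v hv h)
    · intro h; exact absurd (mem_range.2 hv) h
  -- fillers
  have e2 : (∑ w ∈ range O.V, ∑ d ∈ range (O.X - O.r w * O.c w),
      if ρ (.Fil w d) % O.V = lam v then (1 : ℚ) / (O.modulus (.Fil w d) : ℚ) else 0) =
      ((O.X : ℚ) - O.r v * O.c v) / (O.V * (O.r v * O.X)) := by
    rw [Finset.sum_eq_single v]
    · rw [g_eq O ρ (lam v) _ (Til.Fil v) (O.V * (O.r v * O.X))
        (fun d => by rw [modulus_Fil]; push_cast; ring)]
      rw [Finset.filter_true_of_mem, card_range]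
      · have h1 := hO.cap v hv
        push_cast [h1]; ring
      · intro d hd
        exact lane_Fil hO hl (O.mem_Fil.2 ⟨hv, mem_range.1 hd⟩)
    · intro w hw hne
      refine Finset.sum_eq_zero fun d hd => ?_
      rw [if_neg]
      intro h
      rw [lane_Fil hO hl (O.mem_Fil.2 ⟨mem_range.1 hw, mem_range.1 hd⟩)] at h
      exact hne (hl.inj w (mem_range.1 hw) v hv h)
    · intro h; exact absurd (mem_range.2 hv) h
  -- big edges
  have e3 : (∑ i ∈ range O.n, ∑ d ∈ range (O.r (2 * i) * O.r (2 * i + 1)),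
      if ρ (.Big i d) % O.V = lam v then (1 : ℚ) / (O.modulus (.Big i d) : ℚ) else 0) =
      (if v < 2 * O.n then ((O.p * cB O ρ (v / 2) (lam v) : ℕ) : ℚ) / O.r (st v) else 0) /
        (O.V * (O.r v * O.X)) := by
    have hi : ∀ i, (∑ d ∈ range (O.r (2 * i) * O.r (2 * i + 1)),
      if ρ (.Big i d) % O.V = lam v then (1 : ℚ) / (O.modulus (.Big i d) : ℚ) else 0) =
      (cB O ρ i (lam v) : ℚ) / (O.V * (O.r (2 * i) * O.r (2 * i + 1) * O.Y)) := fun i =>
      g_eq O ρ (lam v) _ (Til.Big i) _ (fun d => by rw [modulus_Big]; push_cast; ring)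
    have hzero : ∀ i < O.n, 2 * i ≠ v → 2 * i + 1 ≠ v → cB O ρ i (lam v) = 0 := by
      intro i hi h1 h2
      unfold cB
      rw [Finset.card_eq_zero, Finset.filter_eq_empty_iff]
      intro d hd h
      rcases lane_Big hO hl (O.mem_Big.2 ⟨hi, mem_range.1 hd⟩) with h3 | h3
      · exact h1 (hl.inj _ (by omega) v hv (h3.symm.trans h))
      · exact h2 (hl.inj _ (by omega) v hv (h3.symm.trans h))
    simp only [hi]
    by_cases hvn : v < 2 * O.n
    · rw [if_pos hvn, Finset.sum_eq_single (v / 2)]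
      · have hst : (O.r (2 * (v / 2)) : ℚ) * O.r (2 * (v / 2) + 1) = O.r v * O.r (st v) := by
          unfold st
          rcases Nat.mod_two_eq_zero_or_one v with h | h
          · rw [if_pos h]
            have h1 : 2 * (v / 2) = v := by omega
            rw [h1]
          · rw [if_neg (by omega)]
            have h1 : 2 * (v / 2) = v - 1 := by omega
            have h2 : v - 1 + 1 = v := by omega
            rw [h1, h2]; ring
        rw [hst, hXY]
        push_cast
        have := hr v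
        have := hr (st v)
        field_simp
      · intro i hi hne
        rw [hzero i (mem_range.1 hi) (by omega) (by omega)]
        simp
      · intro h
        exact absurd (mem_range.2 (by omega)) h
    · rw [if_neg hvn]
      rw [Finset.sum_eq_zero]
      · simp
      · intro i hi
        have := mem_range.1 hi
        rw [hzero i (mem_range.1 hi) (by omega) (by omega)]
        simp
  -- unit edges
  have e4 : (∑ u ∈ range O.V, ∑ w ∈ range O.V, ∑ d ∈ range (O.W u w * (O.r u * O.r w)),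
      if ρ (.Sm u w d) % O.V = lam v then (1 : ℚ) / (O.modulus (.Sm u w d) : ℚ) else 0) =
      (∑ w ∈ range O.V, ((cS O ρ v w (lam v) + cS O ρ w v (lam v) : ℕ) : ℚ) / O.r w) /
        (O.V * (O.r v * O.X)) := by
    have hi : ∀ u w, (∑ d ∈ range (O.W u w * (O.r u * O.r w)),
      if ρ (.Sm u w d) % O.V = lam v then (1 : ℚ) / (O.modulus (.Sm u w d) : ℚ) else 0) =
      (cS O ρ u w (lam v) : ℚ) / (O.V * (O.r u * O.r w * O.X)) := fun u w =>
      g_eq O ρ (lam v) _ (Til.Sm u w) _ (fun d => by rw [modulus_Sm]; push_cast; ring)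
    have hzero : ∀ u w, u < O.V → w < O.V → u ≠ v → w ≠ v → cS O ρ u w (lam v) = 0 := by
      intro u w hu hw h1 h2
      unfold cS
      rw [Finset.card_eq_zero, Finset.filter_eq_empty_iff]
      intro d hd h
      rcases lane_Sm hO hl (O.mem_Sm.2 ⟨hu, hw, mem_range.1 hd⟩) with h3 | h3
      · exact h1 (hl.inj _ hu v hv (h3.symm.trans h))
      · exact h2 (hl.inj _ hw v hv (h3.symm.trans h))
    have hvv : cS O ρ v v (lam v) = 0 := cS_zero (hO.W_zero v v (by omega))
    simp only [hi]
    have hsplit : ∀ u ∈ range O.V, ∑ w ∈ range O.V,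
        (cS O ρ u w (lam v) : ℚ) / (O.V * (O.r u * O.r w * O.X)) =
        (cS O ρ u v (lam v) : ℚ) / (O.V * (O.r u * O.r v * O.X)) +
        (if u = v then ∑ w ∈ range O.V,
          (cS O ρ v w (lam v) : ℚ) / (O.V * (O.r v * O.r w * O.X)) else 0) := by
      intro u hu
      by_cases huv : u = v
      · subst huv
        rw [if_pos rfl, hvv]
        simp
      · rw [if_neg huv, Finset.sum_eq_single v]
        · simp
        · intro w hw hne
          rw [hzero u w (mem_range.1 hu) (mem_range.1 hw) huv hne]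
          simp
        · intro h; exact absurd (mem_range.2 hv) h
    rw [Finset.sum_congr rfl hsplit, Finset.sum_add_distrib, Finset.sum_ite_eq' (range O.V) v,
      if_pos (mem_range.2 hv), ← Finset.sum_add_distrib, Finset.sum_div]
    refine Finset.sum_congr rfl fun w _ => ?_
    push_cast
    have := hr v
    have := hr w
    field_simp
    ring
  rw [e1, e2, e3, e4] at E
  have hrv := hr v
  set S1 := (if v < 2 * O.n then ((O.p * cB O ρ (v / 2) (lam v) : ℕ) : ℚ) / O.r (st v) else 0)
  set S2 := ∑ w ∈ range O.V, ((cS O ρ v w (lam v) + cS O ρ w v (lam v) : ℕ) : ℚ) / O.r w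
  field_simp at E
  linarith

theorem cop_p (hO : O.Good) (v : ℕ) : Nat.Coprime (O.r v) O.p :=
  ((hO.prime v).coprime_iff_not_dvd).2 fun h => hO.cop v (h.mul_right _)

theorem cop_rr (hO : O.Good) {u v : ℕ} (h : u ≠ v) : Nat.Coprime (O.r u) (O.r v) := by
  rw [Nat.coprime_primes (hO.prime u) (hO.prime v)]
  exact fun h' => h (hO.inj _ _ h')

theorem st_lt (hO : O.Good) {v : ℕ} (h : v < 2 * O.n) : st v < O.V := by
  have := hO.two_n
  unfold st
  split_ifs <;> omega

theorem W_st (hO : O.Good) {v : ℕ} (hv : v < 2 * O.n) :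
    O.W v (st v) = 0 ∧ O.W (st v) v = 0 := by
  unfold st
  rcases Nat.mod_two_eq_zero_or_one v with h | h
  · rw [if_pos h]
    refine ⟨?_, hO.W_zero _ _ (by omega)⟩
    have h1 := hO.W_big (v / 2) (by omega)
    have h2 : 2 * (v / 2) = v := by omega
    rwa [h2] at h1
  · rw [if_neg (by omega)]
    refine ⟨hO.W_zero _ _ (by omega), ?_⟩
    have h1 := hO.W_big (v / 2) (by omega)
    have h2 : 2 * (v / 2) = v - 1 := by omega
    have h3 : v - 1 + 1 = v := by omega
    rwa [h2, h3] at h1

/-- integrality -/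
theorem dvd_all (hO : O.Good) (H : O.Placed ρ) (hl : IsLam O ρ lam) {v : ℕ} (hv : v < O.V) :
    (v < 2 * O.n → O.r (st v) ∣ cB O ρ (v / 2) (lam v)) ∧
      ∀ w < O.V, O.r w ∣ cS O ρ v w (lam v) + cS O ρ w v (lam v) := by
  have E := lane_eq hO H hl hv
  set N : ℕ → ℕ := fun w => (if v < 2 * O.n ∧ w = st v then O.p * cB O ρ (v / 2) (lam v) else 0) +
    (cS O ρ v w (lam v) + cS O ρ w v (lam v)) with hN
  have E2 : ∑ w ∈ range O.V, (N w : ℚ) / O.r w = ((O.r v * O.c v : ℕ) : ℚ) := by
    push_cast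
    rw [← E]
    simp only [hN, Nat.cast_add, add_div, Finset.sum_add_distrib]
    congr 1
    by_cases hvn : v < 2 * O.n
    · rw [if_pos hvn, Finset.sum_eq_single (st v)]
      · rw [if_pos ⟨hvn, rfl⟩]
      · intro w _ hne
        rw [if_neg (fun h => hne h.2)]
        simp
      · intro h
        exact absurd (mem_range.2 (st_lt hO hvn)) h
    · rw [if_neg hvn]
      refine Finset.sum_eq_zero fun w _ => ?_
      rw [if_neg (fun h => hvn h.1)]
      simp
  have D := dvd_of_sum_div hO.prime hO.inj E2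
  have hst0 : v < 2 * O.n → cS O ρ v (st v) (lam v) + cS O ρ (st v) v (lam v) = 0 := by
    intro hvn
    rw [cS_zero (W_st hO hvn).1, cS_zero (W_st hO hvn).2]
  constructor
  · intro hvn
    have h1 := D (st v) (mem_range.2 (st_lt hO hvn))
    simp only [hN] at h1
    rw [if_pos ⟨hvn, trivial⟩, hst0 hvn, Nat.add_zero] at h1
    exact (cop_p hO (st v)).dvd_of_dvd_mul_left h1
  · intro w hw
    by_cases hws : v < 2 * O.n ∧ w = st v
    · rw [hws.2, hst0 hws.1]
      exact dvd_zero _
    · have h1 := D w (mem_range.2 hw)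
      simp only [hN] at h1
      rwa [if_neg hws, Nat.zero_add] at h1

theorem dvd_cS (hO : O.Good) (H : O.Placed ρ) (hl : IsLam O ρ lam) {u v : ℕ} (huv : u < v)
    (hv : v < O.V) : O.r u * O.r v ∣ cS O ρ u v (lam u) := by
  have hu := huv.trans hv
  have z : ∀ k, cS O ρ v u k = 0 := fun k => cS_zero (hO.W_zero v u (by omega))
  have h1 := (dvd_all hO H hl hu).2 v hv
  have h2 := (dvd_all hO H hl hv).2 u hu
  rw [z, Nat.add_zero] at h1
  rw [z, Nat.zero_add] at h2
  have h3 := cS_add hO hl huv hv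
  have h4 : O.r u ∣ cS O ρ u v (lam u) := by
    have h5 : O.r u ∣ cS O ρ u v (lam u) + cS O ρ u v (lam v) := by
      rw [h3]
      exact (Dvd.intro _ rfl : O.r u ∣ O.r u * O.r v).mul_left _
    exact (Nat.dvd_add_left h2).1 h5
  exact (cop_rr hO (by omega)).mul_dvd_of_dvd_of_dvd h4 h1

theorem dvd_cB (hO : O.Good) (H : O.Placed ρ) (hl : IsLam O ρ lam) {i : ℕ} (hi : i < O.n) :
    O.r (2 * i) * O.r (2 * i + 1) ∣ cB O ρ i (lam (2 * i)) := by
  have h2n := hO.two_n
  have h1 := (dvd_all hO H hl (v := 2 * i) (by omega)).1 (by omega)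
  have h2 := (dvd_all hO H hl (v := 2 * i + 1) (by omega)).1 (by omega)
  have e1 : st (2 * i) = 2 * i + 1 := by unfold st; rw [if_pos (by omega)]
  have e2 : st (2 * i + 1) = 2 * i := by unfold st; rw [if_neg (by omega)]; omega
  have e3 : 2 * i / 2 = i := by omega
  have e4 : (2 * i + 1) / 2 = i := by omega
  rw [e1, e3] at h1
  rw [e2, e4] at h2
  have h3 := cB_add hO hl hi
  have h4 : O.r (2 * i) ∣ cB O ρ i (lam (2 * i)) := by
    have h5 : O.r (2 * i) ∣ cB O ρ i (lam (2 * i)) + cB O ρ i (lam (2 * i + 1)) := by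
      rw [h3]
      exact Dvd.intro _ rfl
    exact (Nat.dvd_add_left h2).1 h5
  exact (cop_rr hO (by omega)).mul_dvd_of_dvd_of_dvd h4 h1

theorem sound (hO : O.Good) (H : O.Placed ρ) : O.Sol := by
  obtain ⟨lam, hl⟩ := exists_lam hO H
  have hrp := hO.r_pos
  have h2n := hO.two_n
  set R : ℕ → ℕ := fun i => O.r (2 * i) * O.r (2 * i + 1) with hR
  have hRp : ∀ i, 0 < R i := fun i => Nat.mul_pos (hrp _) (hrp _)
  set β : ℕ → ℕ := fun i => if i < O.n then cB O ρ i (lam (2 * i)) / R i else 0 with hβ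
  set α : ℕ → ℕ → ℕ := fun u v => cS O ρ u v (lam u) / (O.r u * O.r v) with hα
  have a0 : ∀ u v, O.W u v = 0 → α u v = 0 := by
    intro u v h
    simp only [hα]
    rw [cS_zero h, Nat.zero_div]
  have a1 : ∀ u v, u < v → v < O.V → cS O ρ u v (lam u) = O.r u * O.r v * α u v := by
    intro u v huv hv
    simp only [hα]
    rw [Nat.mul_div_cancel' (dvd_cS hO H hl huv hv)]
  have a2 : ∀ u v, α u v ≤ O.W u v := by
    intro u v
    by_cases h : u < v ∧ v < O.V
    · have h1 := cS_add hO hl h.1 h.2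
      rw [a1 u v h.1 h.2] at h1
      have h2 : O.r u * O.r v * α u v ≤ O.r u * O.r v * O.W u v := by
        rw [mul_comm (O.W u v)] at h1
        omega
      exact Nat.le_of_mul_le_mul_left h2 (Nat.mul_pos (hrp _) (hrp _))
    · rw [a0 u v (hO.W_zero u v h)]
      exact Nat.zero_le _
  have a3 : ∀ u v, u < v → v < O.V →
      cS O ρ u v (lam v) = O.r u * O.r v * (O.W u v - α u v) := by
    intro u v huv hv
    have h1 := cS_add hO hl huv hv
    rw [a1 u v huv hv, mul_comm (O.W u v)] at h1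
    rw [Nat.mul_sub]
    omega
  have b1 : ∀ i < O.n, cB O ρ i (lam (2 * i)) = R i * β i := by
    intro i hi
    simp only [hβ]
    rw [if_pos hi, Nat.mul_div_cancel' (dvd_cB hO H hl hi)]
  have b2 : ∀ i, β i ≤ 1 := by
    intro i
    by_cases hi : i < O.n
    · have h1 := cB_add hO hl hi
      rw [b1 i hi] at h1
      have h2 : R i * β i ≤ R i * 1 := by
        simp only [hR, mul_one] at h1 ⊢
        omega
      exact Nat.le_of_mul_le_mul_left h2 (hRp i)
    · simp only [hβ]
      rw [if_neg hi]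
      exact Nat.zero_le _
  have b3 : ∀ i < O.n, cB O ρ i (lam (2 * i + 1)) = R i * (1 - β i) := by
    intro i hi
    have h1 := cB_add hO hl hi
    rw [b1 i hi] at h1
    rw [Nat.mul_sub, mul_one]
    simp only [hR] at h1 ⊢
    omega
  refine ⟨β, α, b2, a2, ?_⟩
  intro v hv
  have E := lane_eq hO H hl hv
  have hrv : (O.r v : ℚ) ≠ 0 := by have := hrp v; positivity
  -- big part
  have f1 : (if v < 2 * O.n then ((O.p * cB O ρ (v / 2) (lam v) : ℕ) : ℚ) / O.r (st v) else 0) =
      O.r v * (O.p * O.inB β v : ℕ) := by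
    unfold inB
    by_cases hvn : v < 2 * O.n
    · rw [if_pos hvn, if_pos hvn]
      have hs0 : (O.r (st v) : ℚ) ≠ 0 := by have := hrp (st v); positivity
      rcases Nat.mod_two_eq_zero_or_one v with h | h
      · rw [if_pos h]
        have h1 : v = 2 * (v / 2) := by omega
        have h2 : cB O ρ (v / 2) (lam v) = O.r v * O.r (st v) * β (v / 2) := by
          have := b1 (v / 2) (by omega)
          simp only [hR] at this
          rw [← h1] at this
          unfold st
          rw [if_pos h]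
          exact this
        rw [h2]
        push_cast
        field_simp
      · rw [if_neg (by omega)]
        have h1 : 2 * (v / 2) + 1 = v := by omega
        have h2 : cB O ρ (v / 2) (lam v) = O.r v * O.r (st v) * (1 - β (v / 2)) := by
          have := b3 (v / 2) (by omega)
          simp only [hR] at this
          rw [h1] at this
          unfold st
          rw [if_neg (by omega)]
          have h3 : 2 * (v / 2) = v - 1 := by omega
          rw [h3] at this
          rw [this]
          ring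
        rw [h2]
        push_cast
        field_simp
    · rw [if_neg hvn, if_neg hvn]
      simp
  have f2 : ∀ w ∈ range O.V, ((cS O ρ v w (lam v) + cS O ρ w v (lam v) : ℕ) : ℚ) / O.r w =
      O.r v * (α v w + (O.W w v - α w v) : ℕ) := by
    intro w hw
    have hw := mem_range.1 hw
    have hrw : (O.r w : ℚ) ≠ 0 := by have := hrp w; positivity
    rcases Nat.lt_trichotomy v w with h | h | h
    · rw [cS_zero (hO.W_zero w v (by omega)), a1 v w h hw, hO.W_zero w v (by omega)]
      simp only [Nat.add_zero, Nat.zero_sub]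
      push_cast
      field_simp
    · subst h
      rw [cS_zero (hO.W_zero v v (by omega)), hO.W_zero v v (by omega),
        a0 v v (hO.W_zero v v (by omega))]
      simp
    · rw [cS_zero (hO.W_zero v w (by omega)), a3 w v h hv, a0 v w (hO.W_zero v w (by omega))]
      simp only [Nat.zero_add]
      rw [Nat.cast_mul, Nat.cast_mul]
      field_simp
  rw [f1, Finset.sum_congr rfl f2, ← Finset.mul_sum, ← mul_add] at E
  have E2 := mul_left_cancel₀ hrv E
  have E3 : O.p * O.inB β v + ∑ w ∈ range O.V, (α v w + (O.W w v - α w v)) = O.c v := by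
    exact_mod_cast E2
  rw [Finset.sum_add_distrib] at E3
  omega

end
end Ori
end Pool.Agent.H.MP_84f0af_lc.Strong
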